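import Pool.Agent.Zk14.BarM.Final

/-!
# Certificates with degree conditions: definitions and evaluation
-/

set_option autoImplicit false
open Finset

namespace Pool.Agent.Zk14.BarD

open Pool.Agent.Zk14.Bar (Flag IsPSD pull square value TetraFree Str mem_Str pull_Str Str_congr
  Symm3 tot bi view qf sos evaluate big_nonneg sos_nonneg IsForm curve node core term_le
  slack_le qf_isForm Str_congr_one sum_eq_one node_pos node_ge node_le curve_sub marg ind_edge
  sum_square sum_card)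

/-- The root and the `m` further vertices. -/
def fl (m k : ℕ) : Fin 1 ⊕ Fin m → Fin 1 ⊕ (Fin m ⊕ Fin k) := Sum.map id Sum.inl

/-- The average of `c m F` times the indicator of the edge formed by the root and two more
vertices. -/
noncomputable def degPart {N : ℕ} (c : (m : ℕ) → Flag 1 m → ℝ) (H : Finset (Finset (Fin N)))
    (m : ℕ) : ℝ :=
  (∑ g : Fin 1 ⊕ (Fin m ⊕ Fin 2) ↪ Fin N, c m (pull (g ∘ fl m 2) H) *
      (if ({g (Sum.inl 0), g (Sum.inr (Sum.inr 0)), g (Sum.inr (Sum.inr 1))} :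
        Finset (Fin N)) ∈ H then 1 else 0)) /
    (Fintype.card (Fin 1 ⊕ (Fin m ⊕ Fin 2) ↪ Fin N) : ℝ)

/-- The average of `c m F` times the indicator of the edge formed by three more vertices. -/
noncomputable def denPart {N : ℕ} (c : (m : ℕ) → Flag 1 m → ℝ) (H : Finset (Finset (Fin N)))
    (m : ℕ) : ℝ :=
  (∑ g : Fin 1 ⊕ (Fin m ⊕ Fin 3) ↪ Fin N, c m (pull (g ∘ fl m 3) H) *
      (if ({g (Sum.inr (Sum.inr 0)), g (Sum.inr (Sum.inr 1)), g (Sum.inr (Sum.inr 2))} :
        Finset (Fin N)) ∈ H then 1 else 0)) /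
    (Fintype.card (Fin 1 ⊕ (Fin m ⊕ Fin 3) ↪ Fin N) : ℝ)

/-- The value with the degree terms. -/
noncomputable def value2 {N : ℕ} (Q : (s m : ℕ) → Flag s m → Flag s m → ℝ)
    (c : (m : ℕ) → Flag 1 m → ℝ) (H : Finset (Finset (Fin N))) : ℝ :=
  value Q H + ∑ m ∈ range (N - 3), (degPart c H m - denPart c H m)

section eval

variable {B : Type} [Fintype B]

/-- The degree of a block. -/
noncomputable def bdeg (G : B → B → B → Bool) (W : B → ℝ) (b : B) : ℝ :=
  ∑ y, ∑ z, W y * W z * bi (G b y z)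

/-- The value of the multiplier at a root. -/
noncomputable def cv (G : B → B → B → Bool) (c : (m : ℕ) → Flag 1 m → ℝ) (m : ℕ)
    (φ : Fin 1 → B) (W : B → ℝ) : ℝ :=
  ∑ ψ : Fin m → B, (∏ i, W (ψ i)) * c m (Str G (Sum.elim φ ψ))

/-- The degree term at a pattern. -/
noncomputable def lt (G : B → B → B → Bool) (c : (m : ℕ) → Flag 1 m → ℝ) (m : ℕ)
    (W : B → ℝ) : ℝ :=
  ∑ φ : Fin 1 → B, W (φ 0) * cv G c m φ W *
    (tot W * bdeg G W (φ 0) - Pool.Agent.Zk14.Bar.dens G W)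

/-- Averages over placements. -/
theorem sum_place {N : ℕ} {E : Type} [Fintype E] [DecidableEq E] (hE : Fintype.card E ≤ N)
    (W : B → ℝ) (h : (E → B) → ℝ) :
    ∑ τ : Fin N → B, (∏ i, W (τ i)) *
      ((∑ g : E ↪ Fin N, h (τ ∘ g)) / (Fintype.card (E ↪ Fin N) : ℝ)) =
    tot W ^ (N - Fintype.card E) * ∑ ρ : E → B, (∏ i, W (ρ i)) * h ρ := by
  have h1 : ∀ g : E ↪ Fin N, ∑ τ : Fin N → B, (∏ i, W (τ i)) * h (τ ∘ g) =
      tot W ^ (N - Fintype.card E) * ∑ ρ : E → B, (∏ i, W (ρ i)) * h ρ := by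
    intro g
    have := marg W g g.injective h
    rw [Fintype.card_fin] at this
    exact this
  have hne : Nonempty (E ↪ Fin N) := by
    rw [Function.Embedding.nonempty_iff_card_le, Fintype.card_fin]
    exact hE
  have hc : (Fintype.card (E ↪ Fin N) : ℝ) ≠ 0 := by
    exact_mod_cast Fintype.card_ne_zero
  calc _ = (∑ g : E ↪ Fin N, ∑ τ : Fin N → B, (∏ i, W (τ i)) * h (τ ∘ g)) /
        (Fintype.card (E ↪ Fin N) : ℝ) := by
        rw [sum_comm, sum_div]
        refine sum_congr rfl fun τ _ => ?_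
        rw [mul_div_assoc', mul_sum]
    _ = _ := by
        rw [sum_congr rfl fun g _ => h1 g, sum_const, card_univ, nsmul_eq_mul]
        field_simp

theorem split_arrow {X Y : Type} [Fintype X] [Fintype Y] [DecidableEq X] [DecidableEq Y]
    (W : B → ℝ) (h : (X ⊕ Y → B) → ℝ) :
    ∑ ρ : X ⊕ Y → B, (∏ i, W (ρ i)) * h ρ =
      ∑ φ : X → B, (∏ i, W (φ i)) * ∑ ψ : Y → B, (∏ i, W (ψ i)) * h (Sum.elim φ ψ) := by
  rw [Fintype.sum_equiv (Equiv.sumArrowEquivProdArrow X Y B) _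
    (fun p => ((∏ i, W (p.1 i)) * ∏ i, W (p.2 i)) * h (Sum.elim p.1 p.2))
    (fun ρ => by
      rw [Fintype.prod_sum_type]
      have : Sum.elim (Equiv.sumArrowEquivProdArrow X Y B ρ).1
          (Equiv.sumArrowEquivProdArrow X Y B ρ).2 = ρ := by
        funext i
        rcases i with i | i <;> rfl
      rw [this]
      rfl)]
  rw [Fintype.sum_prod_type]
  refine sum_congr rfl fun φ _ => ?_
  rw [mul_sum]
  exact sum_congr rfl fun ψ _ => by ring

theorem sum_fin2 (g : (Fin 2 → B) → ℝ) :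
    ∑ ρ : Fin 2 → B, g ρ = ∑ x, ∑ y, g ![x, y] := by
  let e : (Fin 2 → B) ≃ B × B :=
    { toFun := fun f => (f 0, f 1)
      invFun := fun p => ![p.1, p.2]
      left_inv := fun f => by
        funext i
        fin_cases i <;> rfl
      right_inv := fun p => rfl }
  rw [Fintype.sum_equiv e g (fun p => g ![p.1, p.2]) (fun f => by
    congr 1
    funext i
    fin_cases i <;> rfl)]
  rw [Fintype.sum_prod_type]

theorem sum_degPart {N m : ℕ} (hm : m + 3 ≤ N) {G : B → B → B → Bool} (hG : Symm3 G)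
    (c : (m : ℕ) → Flag 1 m → ℝ) (W : B → ℝ) :
    ∑ τ : Fin N → B, (∏ i, W (τ i)) * degPart c (Str G τ) m =
      tot W ^ (N - (m + 3)) *
        ∑ φ : Fin 1 → B, W (φ 0) * cv G c m φ W * bdeg G W (φ 0) := by
  have hcard : Fintype.card (Fin 1 ⊕ (Fin m ⊕ Fin 2)) = m + 3 := by
    simp only [Fintype.card_sum, Fintype.card_fin]
    ring
  let h : (Fin 1 ⊕ (Fin m ⊕ Fin 2) → B) → ℝ := fun ρ => c m (Str G (ρ ∘ fl m 2)) *
    bi (G (ρ (Sum.inl 0)) (ρ (Sum.inr (Sum.inr 0))) (ρ (Sum.inr (Sum.inr 1))))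
  have h1 := sum_place (N := N) (E := Fin 1 ⊕ (Fin m ⊕ Fin 2)) (by rw [hcard]; exact hm) W h
  rw [hcard] at h1
  have h2 : ∀ τ : Fin N → B, degPart c (Str G τ) m =
      (∑ g : Fin 1 ⊕ (Fin m ⊕ Fin 2) ↪ Fin N, h (τ ∘ g)) /
        (Fintype.card (Fin 1 ⊕ (Fin m ⊕ Fin 2) ↪ Fin N) : ℝ) := by
    intro τ
    unfold degPart
    congr 1
    refine sum_congr rfl fun g _ => ?_
    have i1 : Function.Injective (g ∘ fl m 2) :=
      g.injective.comp (Function.injective_id.sumMap Sum.inl_injective)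
    rw [pull_Str G τ _ i1, ind_edge hG]
    · rfl
    · exact fun e => absurd (g.injective e) (by simp)
    · exact fun e => absurd (g.injective e) (by simp)
    · exact fun e => absurd (g.injective e) (by simp)
  simp only [h2]
  rw [h1]
  congr 1
  rw [split_arrow]
  refine sum_congr rfl fun φ _ => ?_
  rw [split_arrow]
  have key : ∀ ψ : Fin m → B, ∑ χ : Fin 2 → B, (∏ i, W (χ i)) * h (Sum.elim φ (Sum.elim ψ χ)) =
      c m (Str G (Sum.elim φ ψ)) * bdeg G W (φ 0) := by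
    intro ψ
    rw [sum_fin2]
    unfold bdeg
    rw [mul_sum]
    refine sum_congr rfl fun x _ => ?_
    rw [mul_sum]
    refine sum_congr rfl fun y _ => ?_
    rw [Fin.prod_univ_two]
    have e1 : Sum.elim φ (Sum.elim ψ ![x, y]) ∘ fl m 2 = Sum.elim φ ψ := by
      funext i
      rcases i with i | i <;> rfl
    show W x * W y * (c m (Str G (Sum.elim φ (Sum.elim ψ ![x, y]) ∘ fl m 2)) *
      bi (G (φ 0) x y)) = c m (Str G (Sum.elim φ ψ)) * (W x * W y * bi (G (φ 0) x y))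
    rw [e1]
    ring
  unfold cv
  rw [Fin.prod_univ_one, mul_assoc, sum_mul]
  congr 1
  refine sum_congr rfl fun ψ _ => ?_
  rw [key]
  ring

theorem sum_denPart {N m : ℕ} (hm : m + 4 ≤ N) {G : B → B → B → Bool} (hG : Symm3 G)
    (c : (m : ℕ) → Flag 1 m → ℝ) (W : B → ℝ) :
    ∑ τ : Fin N → B, (∏ i, W (τ i)) * denPart c (Str G τ) m =
      tot W ^ (N - (m + 4)) *
        ∑ φ : Fin 1 → B, W (φ 0) * cv G c m φ W * Pool.Agent.Zk14.Bar.dens G W := by
  have hcard : Fintype.card (Fin 1 ⊕ (Fin m ⊕ Fin 3)) = m + 4 := by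
    simp only [Fintype.card_sum, Fintype.card_fin]
    ring
  let h : (Fin 1 ⊕ (Fin m ⊕ Fin 3) → B) → ℝ := fun ρ => c m (Str G (ρ ∘ fl m 3)) *
    bi (G (ρ (Sum.inr (Sum.inr 0))) (ρ (Sum.inr (Sum.inr 1))) (ρ (Sum.inr (Sum.inr 2))))
  have h1 := sum_place (N := N) (E := Fin 1 ⊕ (Fin m ⊕ Fin 3)) (by rw [hcard]; exact hm) W h
  rw [hcard] at h1
  have h2 : ∀ τ : Fin N → B, denPart c (Str G τ) m =
      (∑ g : Fin 1 ⊕ (Fin m ⊕ Fin 3) ↪ Fin N, h (τ ∘ g)) /
        (Fintype.card (Fin 1 ⊕ (Fin m ⊕ Fin 3) ↪ Fin N) : ℝ) := by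
    intro τ
    unfold denPart
    congr 1
    refine sum_congr rfl fun g _ => ?_
    have i1 : Function.Injective (g ∘ fl m 3) :=
      g.injective.comp (Function.injective_id.sumMap Sum.inl_injective)
    rw [pull_Str G τ _ i1, ind_edge hG]
    · rfl
    · exact fun e => absurd (g.injective e) (by simp)
    · exact fun e => absurd (g.injective e) (by simp)
    · exact fun e => absurd (g.injective e) (by simp)
  simp only [h2]
  rw [h1]
  congr 1
  rw [split_arrow]
  refine sum_congr rfl fun φ _ => ?_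
  rw [split_arrow]
  have key : ∀ ψ : Fin m → B, ∑ χ : Fin 3 → B, (∏ i, W (χ i)) * h (Sum.elim φ (Sum.elim ψ χ)) =
      c m (Str G (Sum.elim φ ψ)) * Pool.Agent.Zk14.Bar.dens G W := by
    intro ψ
    rw [Pool.Agent.Zk14.Bar.sum_fin3]
    unfold Pool.Agent.Zk14.Bar.dens
    rw [mul_sum]
    refine sum_congr rfl fun x _ => ?_
    rw [mul_sum]
    refine sum_congr rfl fun y _ => ?_
    rw [mul_sum]
    refine sum_congr rfl fun z _ => ?_
    rw [Fin.prod_univ_three]
    have e1 : Sum.elim φ (Sum.elim ψ ![x, y, z]) ∘ fl m 3 = Sum.elim φ ψ := by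
      funext i
      rcases i with i | i <;> rfl
    show W x * W y * W z * (c m (Str G (Sum.elim φ (Sum.elim ψ ![x, y, z]) ∘ fl m 3)) *
      bi (G x y z)) = c m (Str G (Sum.elim φ ψ)) * (W x * W y * W z * bi (G x y z))
    rw [e1]
    ring
  unfold cv
  rw [Fin.prod_univ_one, mul_assoc, sum_mul]
  congr 1
  refine sum_congr rfl fun ψ _ => ?_
  rw [key]
  ring

/-- The evaluation of a valid certificate with degree terms. -/
theorem evaluate2 {N : ℕ} (hN : 3 ≤ N) {G : B → B → B → Bool} (hS : Symm3 G)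
    {Q : (s m : ℕ) → Flag s m → Flag s m → ℝ} {c : (m : ℕ) → Flag 1 m → ℝ} {lam : ℝ}
    (h : ∀ τ : Fin N → B, value2 Q c (Str G τ) ≤ lam) :
    ∃ sl : (Fin N → B) → ℝ, (∀ τ, 0 ≤ sl τ) ∧ ∀ W : B → ℝ,
      tot W ^ (N - 3) * Pool.Agent.Zk14.Bar.dens G W +
        (∑ s ∈ range (N + 1), ∑ m ∈ range (N + 1),
          if s + 2 * m ≤ N then tot W ^ (N - (s + 2 * m)) * sos G Q s m W else 0) +
        (∑ m ∈ range (N - 3), tot W ^ (N - (m + 4)) * lt G c m W) +
        ∑ τ : Fin N → B, (∏ i, W (τ i)) * sl τ = lam * tot W ^ N := by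
  refine ⟨fun τ => lam - value2 Q c (Str G τ), fun τ => by linarith [h τ], ?_⟩
  intro W
  have hch : (N.choose 3 : ℝ) ≠ 0 := by
    exact_mod_cast (Nat.choose_pos hN).ne'
  have e1 : tot W ^ (N - 3) * Pool.Agent.Zk14.Bar.dens G W =
      ∑ τ : Fin N → B, (∏ i, W (τ i)) * (((Str G τ).card : ℝ) / (N.choose 3 : ℝ)) := by
    have := sum_card (N := N) hS W
    simp only [mul_div_assoc']
    rw [← sum_div, this]
    field_simp
  have e2 : (∑ s ∈ range (N + 1), ∑ m ∈ range (N + 1),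
        if s + 2 * m ≤ N then tot W ^ (N - (s + 2 * m)) * sos G Q s m W else 0) =
      ∑ τ : Fin N → B, (∏ i, W (τ i)) *
        ∑ s ∈ range (N + 1), ∑ m ∈ range (N + 1), square Q (Str G τ) s m := by
    simp only [← sum_square]
    simp only [mul_sum]
    calc ∑ s ∈ range (N + 1), ∑ m ∈ range (N + 1), ∑ τ : Fin N → B,
            (∏ i, W (τ i)) * square Q (Str G τ) s m
        = ∑ s ∈ range (N + 1), ∑ τ : Fin N → B, ∑ m ∈ range (N + 1),
            (∏ i, W (τ i)) * square Q (Str G τ) s m :=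
          sum_congr rfl fun s _ => sum_comm
      _ = _ := sum_comm
  have e3 : lam * tot W ^ N = ∑ τ : Fin N → B, (∏ i, W (τ i)) * lam := by
    rw [← sum_mul]
    have := Finset.prod_univ_sum (fun _ : Fin N => (univ : Finset B)) (fun _ b => W b)
    rw [Fintype.piFinset_univ] at this
    rw [← this, prod_const, card_univ, Fintype.card_fin]
    unfold tot
    ring
  have e4 : (∑ m ∈ range (N - 3), tot W ^ (N - (m + 4)) * lt G c m W) =
      ∑ τ : Fin N → B, (∏ i, W (τ i)) *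
        ∑ m ∈ range (N - 3), (degPart c (Str G τ) m - denPart c (Str G τ) m) := by
    simp only [mul_sum]
    rw [sum_comm]
    refine sum_congr rfl fun m hm => ?_
    rw [mem_range] at hm
    simp only [mul_sub]
    rw [sum_sub_distrib, sum_degPart (by omega) hS, sum_denPart (by omega) hS]
    unfold lt
    have hp : tot W ^ (N - (m + 3)) = tot W ^ (N - (m + 4)) * tot W := by
      rw [← pow_succ]
      congr 1
      omega
    rw [hp, mul_assoc, ← mul_sub]
    congr 1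
    rw [mul_sum, ← sum_sub_distrib]
    refine sum_congr rfl fun φ _ => ?_
    ring
  rw [e1, e2, e3, e4, ← sum_add_distrib, ← sum_add_distrib, ← sum_add_distrib]
  refine sum_congr rfl fun τ _ => ?_
  unfold value2 value
  ring

end eval

end Pool.Agent.Zk14.BarD
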