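import Pool.Agent.Zk14.BarD.Deg

/-!
# Certificates with degree conditions: the main estimate
-/

set_option autoImplicit false
open Finset

namespace Pool.Agent.Zk14.BarD

open Pool.Agent.Zk14.Bar (Flag IsPSD pull square value TetraFree Str mem_Str pull_Str Str_congr
  Symm3 tot bi view qf sos evaluate big_nonneg sos_nonneg IsForm curve node core term_le
  slack_le qf_isForm Str_congr_one sum_eq_one node_pos node_ge node_le curve_sub marg ind_edge
  sum_square sum_card)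
open Pool.Agent.Zk14.BarM (Sys Ok Compare wtg wtg_nonneg Extr ext_value coef view_wtg prod_wtg
  coef_zero coef_one key_gen isForm_scale pow_le_big one_le_tot)

/-! ### Degrees -/

section deg

variable {B : Type} [Fintype B]

/-- The number of non-edges at a block. -/
noncomputable def tdeg (G : B → B → B → Bool) (W : B → ℝ) (b : B) : ℝ :=
  ∑ y, ∑ z, W y * W z * bi (! G b y z)

theorem bdeg_add_tdeg (G : B → B → B → Bool) (W : B → ℝ) (b : B) :
    bdeg G W b + tdeg G W b = tot W ^ 2 := by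
  have h : tot W ^ 2 = ∑ y, ∑ z, W y * W z := by
    unfold tot
    rw [pow_two, sum_mul_sum]
  rw [h]
  unfold bdeg tdeg
  simp only [← sum_add_distrib]
  refine sum_congr rfl fun y _ => sum_congr rfl fun z _ => ?_
  unfold bi
  cases G b y z <;> simp

/-- An extremal weight function with equal degrees. -/
structure ExtrD (G : B → B → B → Bool) (S μ : ℝ) (W : ℝ → B → ℝ) : Prop where
  ext : Extr G S μ W
  reg : ∀ t b, W t b ≠ 0 → tdeg G (W t) b = 4 * (1 + μ * t) ^ 2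

theorem ExtrD.lt_zero {G : B → B → B → Bool} {S μ : ℝ} {W : ℝ → B → ℝ} (hE : ExtrD G S μ W)
    (c : (m : ℕ) → Flag 1 m → ℝ) (m : ℕ) (t : ℝ) : lt G c m (W t) = 0 := by
  unfold lt
  refine sum_eq_zero fun φ _ => ?_
  by_cases h : W t (φ 0) = 0
  · rw [h, zero_mul, zero_mul]
  · have h1 := bdeg_add_tdeg G (W t) (φ 0)
    rw [hE.reg t _ h, hE.ext.tot] at h1
    have h2 : bdeg G (W t) (φ 0) = (S * (1 + μ * t)) ^ 2 - 4 * (1 + μ * t) ^ 2 := by linarith
    rw [h2, hE.ext.tot, hE.ext.dens]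
    ring

end deg

/-! ### Certificates -/

section cert

variable {B : Type} [Fintype B]

/-- All we need about a certificate. -/
structure CertD (G : B → B → B → Bool) (N : ℕ) (Q : (s m : ℕ) → Flag s m → Flag s m → ℝ)
    (c : (m : ℕ) → Flag 1 m → ℝ) (lam : ℝ) (sl : (Fin N → B) → ℝ) : Prop where
  hN : 3 ≤ N
  psd : IsPSD Q
  slack : ∀ τ, 0 ≤ sl τ
  eq : ∀ W : B → ℝ, tot W ^ (N - 3) * Pool.Agent.Zk14.Bar.dens G W +
        (∑ s ∈ range (N + 1), ∑ m ∈ range (N + 1),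
          if s + 2 * m ≤ N then tot W ^ (N - (s + 2 * m)) * sos G Q s m W else 0) +
        (∑ m ∈ range (N - 3), tot W ^ (N - (m + 4)) * lt G c m W) +
        ∑ τ : Fin N → B, (∏ i, W (τ i)) * sl τ = lam * tot W ^ N

variable {G : B → B → B → Bool} {N : ℕ} {Q : (s m : ℕ) → Flag s m → Flag s m → ℝ}
  {c : (m : ℕ) → Flag 1 m → ℝ} {lam S μ : ℝ} {sl : (Fin N → B) → ℝ}

theorem CertD.ext_eq (C : CertD G N Q c lam sl) {W : ℝ → B → ℝ} (hE : ExtrD G S μ W) (t : ℝ) :
    tot (W t) ^ (N - 3) * Pool.Agent.Zk14.Bar.dens G (W t) +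
        (∑ s ∈ range (N + 1), ∑ m ∈ range (N + 1),
          if s + 2 * m ≤ N then tot (W t) ^ (N - (s + 2 * m)) * sos G Q s m (W t) else 0) +
        ∑ τ : Fin N → B, (∏ i, W t (τ i)) * sl τ = lam * tot (W t) ^ N := by
  have h := C.eq (W t)
  have h0 : (∑ m ∈ range (N - 3), tot (W t) ^ (N - (m + 4)) * lt G c m (W t)) = 0 :=
    sum_eq_zero fun m _ => by rw [hE.lt_zero, mul_zero]
  rw [h0, add_zero] at h
  exact h

theorem CertD.ext_slack (C : CertD G N Q c lam sl) (hS : 1 ≤ S) {W : ℝ → B → ℝ}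
    (hE : ExtrD G S μ W) {t : ℝ} (ht : 0 ≤ t) :
    ∑ τ : Fin N → B, (∏ i, W t (τ i)) * sl τ ≤
      (lam - (1 - 4 / S ^ 2)) * (S * (1 + μ * t)) ^ N := by
  have h := slack_le C.psd (hE.ext.nonneg t ht) (C.ext_eq hE t)
  rw [hE.ext.tot, hE.ext.dens, ext_value C.hN (by linarith)] at h
  linarith

theorem CertD.delta_nonneg (C : CertD G N Q c lam sl) (hS : 1 ≤ S) {W : ℝ → B → ℝ}
    (hE : ExtrD G S μ W) : 0 ≤ lam - (1 - 4 / S ^ 2) := by
  have h1 := C.ext_slack hS hE (le_refl (0 : ℝ))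
  have h2 : 0 ≤ ∑ τ : Fin N → B, (∏ i, W 0 (τ i)) * sl τ :=
    sum_nonneg fun τ _ => mul_nonneg (prod_nonneg fun i _ => hE.ext.nonneg 0 le_rfl _) (C.slack τ)
  have h3 : (0 : ℝ) < (S * (1 + μ * 0)) ^ N := by
    rw [mul_zero, add_zero, mul_one]
    positivity
  by_contra hcon
  push Not at hcon
  exact absurd (h2.trans h1) (not_le.2 (mul_neg_of_neg_of_pos hcon h3))

theorem CertD.ext_term (C : CertD G N Q c lam sl) (hS : 1 ≤ S) (hμ : 0 ≤ μ) {W : ℝ → B → ℝ}
    (hE : ExtrD G S μ W) {t : ℝ} (ht0 : 0 ≤ t) (ht1 : t ≤ 1) {s m : ℕ} (hsm : s + 2 * m ≤ N)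
    (φ : Fin s → B) :
    (∏ i, W t (φ i)) * qf Q s m (view G m φ (W t)) ≤
      (lam - (1 - 4 / S ^ 2)) * (S * (1 + μ)) ^ N := by
  have h := term_le C.psd C.slack (hE.ext.nonneg t ht0)
    (by rw [hE.ext.tot]; exact one_le_tot hS hμ ht0) (C.ext_eq hE t) hsm φ
  rw [hE.ext.tot, hE.ext.dens, ext_value C.hN (by linarith)] at h
  have h2 := mul_le_mul_of_nonneg_left (pow_le_big hS hμ ht0 ht1 N le_rfl)
    (C.delta_nonneg hS hE)
  linarith

end cert

/-! ### Systems with degrees -/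

section sys

variable {B : Type} [Fintype B] [DecidableEq B]

/-- A system with equal degrees in the extremal patterns and known degrees in the perturbed
pattern. -/
structure DSys (G : B → B → B → Bool) (dg aP a1 a2 a3 : B → ℕ) (b1 b2 : B → B)
    (S μ κ : ℝ) (dev : B → ℕ) : Prop where
  sys : Sys G dg aP a1 a2 a3 b1 b2 S μ κ
  reg1 : ∀ b, a1 b ≠ 0 → ∀ t, tdeg G (wtg dg a1 t) b = 4 * (1 + μ * t) ^ 2
  reg2 : ∀ b, a2 b ≠ 0 → ∀ t, tdeg G (wtg dg a2 t) b = 4 * (1 + μ * t) ^ 2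
  reg3 : ∀ b, a3 b ≠ 0 → ∀ t, tdeg G (wtg dg a3 (t / 2)) b = 4 * (1 + μ * t) ^ 2
  regP : ∀ b, aP b ≠ 0 → ∀ t, tdeg G (wtg dg aP t) b = 4 * (1 + μ * t) ^ 2 + dev b * t ^ 2
  dev_large : ∀ b, dg b = 0 → dev b = 0

variable {G : B → B → B → Bool} {dg aP a1 a2 a3 : B → ℕ} {b1 b2 : B → B} {S μ κ : ℝ}
  {dev : B → ℕ} {N : ℕ} {Q : (s m : ℕ) → Flag s m → Flag s m → ℝ}
  {c : (m : ℕ) → Flag 1 m → ℝ} {lam : ℝ} {sl : (Fin N → B) → ℝ}

omit [Fintype B] [DecidableEq B] in
theorem wtg_ne {dg a : B → ℕ} {u : ℝ} {b : B} (h : wtg dg a u b ≠ 0) : a b ≠ 0 := by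
  intro h0
  apply h
  unfold wtg
  rw [h0, Nat.cast_zero, zero_mul]

omit [DecidableEq B] in
theorem DSys.ext1 (Y : DSys G dg aP a1 a2 a3 b1 b2 S μ κ dev) :
    ExtrD G S μ (fun t => wtg dg a1 t) :=
  ⟨Y.sys.ext1, fun t b h => Y.reg1 b (wtg_ne h) t⟩

omit [DecidableEq B] in
theorem DSys.ext2 (Y : DSys G dg aP a1 a2 a3 b1 b2 S μ κ dev) :
    ExtrD G S μ (fun t => wtg dg a2 t) :=
  ⟨Y.sys.ext2, fun t b h => Y.reg2 b (wtg_ne h) t⟩

omit [DecidableEq B] in
theorem DSys.ext3 (Y : DSys G dg aP a1 a2 a3 b1 b2 S μ κ dev) :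
    ExtrD G S μ (fun t => wtg dg a3 (t / 2)) :=
  ⟨Y.sys.ext3, fun t b h => Y.reg3 b (wtg_ne h) t⟩

/-- The value of the multiplier at a root of the limit pattern. -/
noncomputable def cf (G : B → B → B → Bool) (dg a : B → ℕ) (c : (m : ℕ) → Flag 1 m → ℝ) (m : ℕ)
    (φ : Fin 1 → B) : ℝ :=
  ∑ ψ : Fin m → B, if ∑ i, dg (ψ i) = 0 then (∏ i, (a (ψ i) : ℝ)) * c m (Str G (Sum.elim φ ψ))
    else 0

/-- The third order coefficient of the degree term. -/
noncomputable def lam3 (G : B → B → B → Bool) (dg a : B → ℕ) (S κ : ℝ) (dev : B → ℕ)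
    (c : (m : ℕ) → Flag 1 m → ℝ) (m : ℕ) : ℝ :=
  ∑ φ : Fin 1 → B, (a (φ 0) : ℝ) * cf G dg a c m φ *
    (if dg (φ 0) = 0 then κ else - (S * dev (φ 0)))

omit [DecidableEq B] in
theorem sum_prod_wtg (a : B → ℕ) (m : ℕ) :
    ∑ ψ : Fin m → B, ∏ i, (a (ψ i) : ℝ) = (∑ b, (a b : ℝ)) ^ m := by
  have := Finset.prod_univ_sum (fun _ : Fin m => (univ : Finset B)) (fun _ b => (a b : ℝ))
  rw [Fintype.piFinset_univ] at this
  rw [← this, prod_const, card_univ, Fintype.card_fin]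

omit [DecidableEq B] in
theorem DSys.sum_aP (Y : DSys G dg aP a1 a2 a3 b1 b2 S μ κ dev) :
    ∑ b, (aP b : ℝ) = S * (1 + μ) := by
  have h := Y.sys.totP 1
  unfold tot wtg at h
  simpa using h

omit [DecidableEq B] in
theorem cf_bound {C : ℝ} (hC0 : 0 ≤ C) {m : ℕ} (hc : ∀ F, |c m F| ≤ C) (φ : Fin 1 → B) :
    |cf G dg aP c m φ| ≤ C * (∑ b, (aP b : ℝ)) ^ m := by
  unfold cf
  refine (abs_sum_le_sum_abs _ _).trans ?_
  rw [← sum_prod_wtg, mul_sum]
  refine sum_le_sum fun ψ _ => ?_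
  have h0 : 0 ≤ ∏ i, (aP (ψ i) : ℝ) := prod_nonneg fun i _ => Nat.cast_nonneg _
  split_ifs
  · rw [abs_mul, abs_of_nonneg h0, mul_comm]
    exact mul_le_mul_of_nonneg_right (hc _) h0
  · rw [abs_zero]
    exact mul_nonneg hC0 h0

omit [DecidableEq B] in
theorem cv_sub_cf {C : ℝ} (hC0 : 0 ≤ C) {m : ℕ} (hc : ∀ F, |c m F| ≤ C) (φ : Fin 1 → B) {t : ℝ}
    (ht0 : 0 ≤ t) (ht1 : t ≤ 1) :
    |cv G c m φ (wtg dg aP t) - cf G dg aP c m φ| ≤ t * (C * (∑ b, (aP b : ℝ)) ^ m) := by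
  unfold cv cf
  rw [← sum_sub_distrib]
  refine (abs_sum_le_sum_abs _ _).trans ?_
  rw [← sum_prod_wtg, mul_sum, mul_sum]
  refine sum_le_sum fun ψ _ => ?_
  have h0 : 0 ≤ ∏ i, (aP (ψ i) : ℝ) := prod_nonneg fun i _ => Nat.cast_nonneg _
  rw [prod_wtg]
  split_ifs with h
  · rw [h, pow_zero, mul_one, sub_self, abs_zero]
    exact mul_nonneg ht0 (mul_nonneg hC0 h0)
  · rw [sub_zero, abs_mul, abs_mul, abs_of_nonneg h0, abs_of_nonneg (pow_nonneg ht0 _)]
    have h1 : t ^ (∑ i, dg (ψ i)) ≤ t := by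
      calc t ^ (∑ i, dg (ψ i)) ≤ t ^ 1 := pow_le_pow_of_le_one ht0 ht1 (by omega)
        _ = t := pow_one t
    calc (∏ i, (aP (ψ i) : ℝ)) * t ^ (∑ i, dg (ψ i)) * |c m (Str G (Sum.elim φ ψ))|
        ≤ (∏ i, (aP (ψ i) : ℝ)) * t * C :=
          mul_le_mul (mul_le_mul_of_nonneg_left h1 h0) (hc _) (abs_nonneg _)
            (mul_nonneg h0 ht0)
      _ = _ := by ring

omit [DecidableEq B] in
theorem sum_phi (f : B → ℝ) : ∑ φ : Fin 1 → B, f (φ 0) = ∑ b, f b :=
  Fintype.sum_equiv (Equiv.funUnique (Fin 1) B) _ _ fun _ => rfl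

/-- The constant of the third order expansion. -/
noncomputable def kon (S μ κ : ℝ) (N : ℕ) (D : ℝ) : ℝ :=
  S * (1 + μ) * ((S * (1 + μ)) ^ N * (2 * κ + 2 * (S * (1 + μ)) * D))

omit [DecidableEq B] in
theorem DSys.lt_bound (Y : DSys G dg aP a1 a2 a3 b1 b2 S μ κ dev) (hS : 1 ≤ S) (hμ : 0 ≤ μ)
    (hκ : 0 ≤ κ) {C : ℝ} (hC0 : 0 ≤ C) {m : ℕ} (hm : m ≤ N) (hc : ∀ F, |c m F| ≤ C) {t : ℝ}
    (ht0 : 0 ≤ t) (ht1 : t ≤ 1) :
    |lt G c m (wtg dg aP t) - t ^ 3 * lam3 G dg aP S κ dev c m| ≤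
      t ^ 4 * (C * kon S μ κ N (∑ b, (dev b : ℝ))) ∧
    |lam3 G dg aP S κ dev c m| ≤ C * kon S μ κ N (∑ b, (dev b : ℝ)) := by
  set M : ℝ := S * (1 + μ) with hM
  have hM1 : 1 ≤ M := by
    rw [hM]
    nlinarith
  set D : ℝ := ∑ b, (dev b : ℝ) with hD
  have hD0 : 0 ≤ D := sum_nonneg fun b _ => Nat.cast_nonneg _
  have hdev : ∀ b, (dev b : ℝ) ≤ D := fun b =>
    single_le_sum (f := fun b => (dev b : ℝ)) (fun b _ => Nat.cast_nonneg _) (mem_univ b)
  have hAm : (∑ b, (aP b : ℝ)) ^ m ≤ M ^ N := by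
    rw [Y.sum_aP]
    exact pow_le_pow_right₀ hM1 hm
  have hMN : 0 ≤ M ^ N := by positivity
  have hcf : ∀ φ : Fin 1 → B, |cf G dg aP c m φ| ≤ C * M ^ N := fun φ =>
    (cf_bound hC0 hc φ).trans (mul_le_mul_of_nonneg_left hAm hC0)
  have hcv : ∀ φ : Fin 1 → B, |cv G c m φ (wtg dg aP t) - cf G dg aP c m φ| ≤
      t * (C * M ^ N) := fun φ =>
    (cv_sub_cf hC0 hc φ ht0 ht1).trans
      (mul_le_mul_of_nonneg_left (mul_le_mul_of_nonneg_left hAm hC0) ht0)
  have hcv' : ∀ φ : Fin 1 → B, |cv G c m φ (wtg dg aP t)| ≤ 2 * (C * M ^ N) := by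
    intro φ
    have h1 := hcf φ
    have h2 := hcv φ
    have h3 : t * (C * M ^ N) ≤ 1 * (C * M ^ N) :=
      mul_le_mul_of_nonneg_right ht1 (mul_nonneg hC0 hMN)
    calc |cv G c m φ (wtg dg aP t)| =
        |(cv G c m φ (wtg dg aP t) - cf G dg aP c m φ) + cf G dg aP c m φ| := by ring_nf
      _ ≤ _ := abs_add_le _ _
      _ ≤ 2 * (C * M ^ N) := by linarith
  have hkon : kon S μ κ N D = M * (M ^ N * (2 * κ + 2 * M * D)) := rfl
  have hMD : 0 ≤ M * D := mul_nonneg (by linarith) hD0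
  constructor
  · have hterm : ∀ φ : Fin 1 → B,
        |wtg dg aP t (φ 0) * cv G c m φ (wtg dg aP t) *
          (tot (wtg dg aP t) * bdeg G (wtg dg aP t) (φ 0) -
            Pool.Agent.Zk14.Bar.dens G (wtg dg aP t)) -
          t ^ 3 * ((aP (φ 0) : ℝ) * cf G dg aP c m φ *
            (if dg (φ 0) = 0 then κ else - (S * dev (φ 0))))| ≤
        (aP (φ 0) : ℝ) * (t ^ 4 * (C * (M ^ N * (2 * κ + 2 * M * D)))) := by
      intro φ
      set a : ℝ := (aP (φ 0) : ℝ) with ha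
      have ha0 : 0 ≤ a := Nat.cast_nonneg _
      set X := cv G c m φ (wtg dg aP t) with hX
      set X0 := cf G dg aP c m φ with hX0
      have h1 := hcv φ
      have h2 := hcf φ
      have h3 := hcv' φ
      by_cases hz : aP (φ 0) = 0
      · have hw : wtg dg aP t (φ 0) = 0 := by
          unfold wtg
          rw [hz, Nat.cast_zero, zero_mul]
        have ha' : a = 0 := by rw [ha, hz, Nat.cast_zero]
        rw [hw, ha']
        simp
      · have hb := bdeg_add_tdeg G (wtg dg aP t) (φ 0)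
        rw [Y.regP _ hz t, Y.sys.totP] at hb
        have hb2 : bdeg G (wtg dg aP t) (φ 0) = (S * (1 + μ * t)) ^ 2 -
            (4 * (1 + μ * t) ^ 2 + dev (φ 0) * t ^ 2) := by linarith
        rw [hb2, Y.sys.totP, Y.sys.densP]
        have hval : S * (1 + μ * t) * ((S * (1 + μ * t)) ^ 2 -
            (4 * (1 + μ * t) ^ 2 + dev (φ 0) * t ^ 2)) -
            ((S ^ 3 - 4 * S) * (1 + μ * t) ^ 3 - κ * t ^ 3) =
            κ * t ^ 3 - S * (1 + μ * t) * dev (φ 0) * t ^ 2 := by ring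
        rw [hval]
        have hd : dg (φ 0) = 0 ∨ dg (φ 0) = 1 := by have := Y.sys.dg_le (φ 0); omega
        have ht3 : 0 ≤ t ^ 3 := by positivity
        have ht4 : 0 ≤ t ^ 4 := by positivity
        rcases hd with hd | hd
        · rw [if_pos hd, Y.dev_large _ hd, Nat.cast_zero]
          have hw : wtg dg aP t (φ 0) = a := by
            unfold wtg
            rw [hd, pow_zero, mul_one]
          rw [hw]
          have e1 : a * X * (κ * t ^ 3 - S * (1 + μ * t) * 0 * t ^ 2) - t ^ 3 * (a * X0 * κ) =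
              a * (t ^ 3 * (κ * (X - X0))) := by ring
          rw [e1, abs_mul, abs_mul, abs_mul, abs_of_nonneg ha0, abs_of_nonneg ht3,
            abs_of_nonneg hκ]
          refine mul_le_mul_of_nonneg_left ?_ ha0
          calc t ^ 3 * (κ * |X - X0|) ≤ t ^ 3 * (κ * (t * (C * M ^ N))) :=
                mul_le_mul_of_nonneg_left (mul_le_mul_of_nonneg_left h1 hκ) ht3
            _ = t ^ 4 * (C * (M ^ N * κ)) := by ring
            _ ≤ t ^ 4 * (C * (M ^ N * (2 * κ + 2 * M * D))) := by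
                refine mul_le_mul_of_nonneg_left (mul_le_mul_of_nonneg_left
                  (mul_le_mul_of_nonneg_left ?_ hMN) hC0) ht4
                nlinarith
        · rw [if_neg (by omega)]
          have hw : wtg dg aP t (φ 0) = a * t := by
            unfold wtg
            rw [hd, pow_one]
          rw [hw]
          set d : ℝ := (dev (φ 0) : ℝ) with hd'
          have hd0 : 0 ≤ d := Nat.cast_nonneg _
          have hdD : d ≤ D := hdev _
          have e1 : a * t * X * (κ * t ^ 3 - S * (1 + μ * t) * d * t ^ 2) -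
              t ^ 3 * (a * X0 * - (S * d)) =
              a * (t ^ 3 * (t * (κ * X) - S * (1 + μ * t) * d * (X - X0) - S * μ * t * d * X0)) := by
            ring
          rw [e1, abs_mul, abs_mul, abs_of_nonneg ha0, abs_of_nonneg ht3]
          refine mul_le_mul_of_nonneg_left ?_ ha0
          have hSt : S * (1 + μ * t) ≤ M := by
            rw [hM]
            have : μ * t ≤ μ * 1 := mul_le_mul_of_nonneg_left ht1 hμ
            nlinarith
          have hSt0 : 0 ≤ S * (1 + μ * t) := by positivity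
          have hSm : S * μ ≤ M := by
            rw [hM]
            nlinarith
          have hSm0 : 0 ≤ S * μ := by positivity
          have hCM : 0 ≤ C * M ^ N := mul_nonneg hC0 hMN
          have f1 : |t * (κ * X)| ≤ t * (κ * (2 * (C * M ^ N))) := by
            rw [abs_mul, abs_mul, abs_of_nonneg ht0, abs_of_nonneg hκ]
            exact mul_le_mul_of_nonneg_left (mul_le_mul_of_nonneg_left h3 hκ) ht0
          have f2 : |S * (1 + μ * t) * d * (X - X0)| ≤ M * D * (t * (C * M ^ N)) := by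
            rw [abs_mul, abs_of_nonneg (mul_nonneg hSt0 hd0)]
            exact mul_le_mul (mul_le_mul hSt hdD hd0 (by linarith)) h1 (abs_nonneg _) hMD
          have f3 : |S * μ * t * d * X0| ≤ M * D * (t * (C * M ^ N)) := by
            have e2 : S * μ * t * d * X0 = S * μ * d * (t * X0) := by ring
            rw [e2, abs_mul, abs_of_nonneg (mul_nonneg hSm0 hd0), abs_mul, abs_of_nonneg ht0]
            exact mul_le_mul (mul_le_mul hSm hdD hd0 (by linarith))
              (mul_le_mul_of_nonneg_left h2 ht0) (mul_nonneg ht0 (abs_nonneg _)) hMD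
          calc t ^ 3 * |t * (κ * X) - S * (1 + μ * t) * d * (X - X0) - S * μ * t * d * X0|
              ≤ t ^ 3 * (t * (κ * (2 * (C * M ^ N))) + M * D * (t * (C * M ^ N)) +
                M * D * (t * (C * M ^ N))) := by
                refine mul_le_mul_of_nonneg_left ?_ ht3
                refine (abs_sub _ _).trans ?_
                refine add_le_add ((abs_sub _ _).trans (add_le_add f1 f2)) f3
            _ = t ^ 4 * (C * (M ^ N * (2 * κ + 2 * M * D))) := by ring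
    have hsum : lt G c m (wtg dg aP t) - t ^ 3 * lam3 G dg aP S κ dev c m =
        ∑ φ : Fin 1 → B, (wtg dg aP t (φ 0) * cv G c m φ (wtg dg aP t) *
          (tot (wtg dg aP t) * bdeg G (wtg dg aP t) (φ 0) -
            Pool.Agent.Zk14.Bar.dens G (wtg dg aP t)) -
          t ^ 3 * ((aP (φ 0) : ℝ) * cf G dg aP c m φ *
            (if dg (φ 0) = 0 then κ else - (S * dev (φ 0))))) := by
      unfold lt lam3
      rw [mul_sum, ← sum_sub_distrib]
    rw [hsum]
    refine (abs_sum_le_sum_abs _ _).trans ((sum_le_sum fun φ _ => hterm φ).trans ?_)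
    rw [← sum_mul, sum_phi (fun b => (aP b : ℝ)), Y.sum_aP, ← hM, hkon]
    exact le_of_eq (by ring)
  · unfold lam3
    refine (abs_sum_le_sum_abs _ _).trans ?_
    have hterm : ∀ φ : Fin 1 → B, |(aP (φ 0) : ℝ) * cf G dg aP c m φ *
        (if dg (φ 0) = 0 then κ else - (S * dev (φ 0)))| ≤
        (aP (φ 0) : ℝ) * (C * (M ^ N * (2 * κ + 2 * M * D))) := by
      intro φ
      have ha0 : (0 : ℝ) ≤ (aP (φ 0) : ℝ) := Nat.cast_nonneg _
      rw [mul_assoc, abs_mul, abs_of_nonneg ha0, abs_mul]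
      refine mul_le_mul_of_nonneg_left ?_ ha0
      have h1 : |if dg (φ 0) = 0 then κ else - (S * (dev (φ 0) : ℝ))| ≤ 2 * κ + 2 * M * D := by
        split_ifs
        · rw [abs_of_nonneg hκ]
          nlinarith
        · rw [abs_neg, abs_of_nonneg (mul_nonneg (by linarith) (Nat.cast_nonneg _))]
          have h2 : S * (dev (φ 0) : ℝ) ≤ M * D :=
            mul_le_mul (by rw [hM]; nlinarith) (hdev _) (Nat.cast_nonneg _) (by linarith)
          nlinarith
      calc |cf G dg aP c m φ| * |if dg (φ 0) = 0 then κ else - (S * (dev (φ 0) : ℝ))|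
          ≤ (C * M ^ N) * (2 * κ + 2 * M * D) :=
            mul_le_mul (hcf φ) h1 (abs_nonneg _) (mul_nonneg hC0 hMN)
        _ = _ := by ring
    refine (sum_le_sum fun φ _ => hterm φ).trans ?_
    rw [← sum_mul, sum_phi (fun b => (aP b : ℝ)), Y.sum_aP, ← hM, hkon]
    exact le_of_eq (by ring)

end sys

end Pool.Agent.Zk14.BarD
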