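import Pool.Agent.Zk14.BarD.Est

/-!
# Certificates with degree conditions: the barrier for systems
-/

set_option autoImplicit false
open Finset

namespace Pool.Agent.Zk14.BarD

open Pool.Agent.Zk14.Bar (Flag IsPSD pull square value TetraFree Str mem_Str pull_Str Str_congr
  Symm3 tot bi view qf sos evaluate big_nonneg sos_nonneg IsForm curve node core term_le
  slack_le qf_isForm Str_congr_one sum_eq_one node_pos node_ge node_le curve_sub marg ind_edge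
  sum_square sum_card)
open Pool.Agent.Zk14.BarM (Sys Ok Compare wtg wtg_nonneg Extr ext_value coef view_wtg prod_wtg
  coef_zero coef_one key_gen isForm_scale pow_le_big one_le_tot)

variable {B : Type} [Fintype B]

theorem key_fam2 {G : B → B → B → Bool} {dg aP a : B → ℕ} (hdg : ∀ x, dg x ≤ 1) {N : ℕ}
    {Q : (s m : ℕ) → Flag s m → Flag s m → ℝ} (hQ : IsPSD Q) {Bd δ : ℝ} (hBd : 0 ≤ Bd)
    {c : ℝ} (hc : 1 / 2 ≤ c) {s m j₀ : ℕ} (hsm : s + 2 * m ≤ N)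
    {φ : Fin s → B} (ha : ∀ i, aP (φ i) ≤ a (φ i))
    (hj : ∀ j : Fin (m + 1), (j : ℕ) < j₀ →
      (1 : ℝ) ^ (j : ℕ) • coef G dg aP m φ j = c ^ (j : ℕ) • coef G dg a m φ j)
    (hkj : 4 ≤ (∑ i, dg (φ i)) + 2 * j₀) {K : ℝ} (hK0 : 0 ≤ K)
    (hK : ∀ (q : (Flag s m → ℝ) → ℝ), IsForm q →
      ∀ (x : Fin (m + 1) → Flag s m → ℝ) (j₀ : ℕ) (C : ℝ),
      (∀ j : Fin (m + 1), (j : ℕ) < j₀ → x j = 0) →
      (∀ i, q (curve x (node m i)) ≤ C) →
      ∀ t, 0 ≤ t → t ≤ 1 → q (curve x t) ≤ K * C * t ^ (2 * j₀))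
    (hper : ∀ u, 0 < u → u ≤ 1 →
      (∏ i, wtg dg aP u (φ i)) * qf Q s m (view G m φ (wtg dg aP u)) ≤ 2 * Bd)
    (hext : ∀ u, 0 < u → u ≤ 1 →
      (∏ i, wtg dg a (c * u) (φ i)) * qf Q s m (view G m φ (wtg dg a (c * u))) ≤ δ * Bd)
    {t : ℝ} (ht0 : 0 < t) (ht1 : t ≤ 1) :
    (∏ i, wtg dg aP t (φ i)) * qf Q s m (view G m φ (wtg dg aP t)) ≤
      2 ^ (N + 1) * Bd * δ + 2 * K * (8 * Bd * (2 * (N + 1)) ^ N) * t ^ 4 := by
  have hk : ∑ i, dg (φ i) ≤ N := by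
    calc ∑ i, dg (φ i) ≤ ∑ i : Fin s, 1 := sum_le_sum fun i _ => hdg _
      _ = s := by simp
      _ ≤ N := by omega
  set A : ℝ := ∏ i, (aP (φ i) : ℝ) with hA
  have hA0 : 0 ≤ A := prod_nonneg fun i _ => Nat.cast_nonneg _
  have hq := qf_isForm hQ s m
  have hview : ∀ u : ℝ, view G m φ (wtg dg aP u) =
      curve (fun j : Fin (m + 1) => (1 : ℝ) ^ (j : ℕ) • coef G dg aP m φ j) u := by
    intro u
    have := view_wtg (G := G) hdg aP m φ 1 u
    rwa [one_mul] at this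
  by_cases hbig : δ ≤ 2
  · have h := key_gen (N := N) (m := m) (k := ∑ i, dg (φ i)) (j₀ := j₀)
      (Bd := Bd) hK0 hBd (isForm_scale hq hA0)
      (hK _ (isForm_scale hq hA0))
      (fun j : Fin (m + 1) => (1 : ℝ) ^ (j : ℕ) • coef G dg aP m φ j)
      (fun j : Fin (m + 1) => c ^ (j : ℕ) • coef G dg a m φ j) hj
      (δ := δ) hbig (by omega) hk hkj
      (fun u hu0 hu1 => by
        have := hper u hu0 hu1
        rw [prod_wtg, hview] at this
        calc _ = (∏ i, (aP (φ i) : ℝ)) * u ^ (∑ i, dg (φ i)) *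
              qf Q s m (curve (fun j : Fin (m + 1) => (1 : ℝ) ^ (j : ℕ) • coef G dg aP m φ j) u) :=
              by ring
          _ ≤ _ := this)
      (fun u hu0 hu1 => by
        have h1 := hext u hu0 hu1
        rw [prod_wtg, view_wtg hdg] at h1
        set X := qf Q s m (curve (fun j : Fin (m + 1) => c ^ (j : ℕ) • coef G dg a m φ j) u)
          with hX
        have hX0 : 0 ≤ X := hq.nonneg _
        have h2 : A ≤ ∏ i, (a (φ i) : ℝ) :=
          prod_le_prod (fun i _ => Nat.cast_nonneg _) fun i _ => by exact_mod_cast ha i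
        have h3 : (1 : ℝ) ≤ 2 ^ N * c ^ (∑ i, dg (φ i)) := by
          have h3 : (1 / 2 : ℝ) ^ (∑ i, dg (φ i)) ≤ c ^ (∑ i, dg (φ i)) :=
            pow_le_pow_left₀ (by norm_num) hc _
          have h4 : (1 / 2 : ℝ) ^ N ≤ (1 / 2) ^ (∑ i, dg (φ i)) :=
            pow_le_pow_of_le_one (by norm_num) (by norm_num) hk
          calc (1 : ℝ) = 2 ^ N * (1 / 2) ^ N := by rw [← mul_pow]; norm_num
            _ ≤ _ := mul_le_mul_of_nonneg_left (h4.trans h3) (by positivity)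
        have hu : 0 ≤ u ^ (∑ i, dg (φ i)) := by positivity
        calc u ^ (∑ i, dg (φ i)) * (A * X) = 1 * (A * (u ^ (∑ i, dg (φ i)) * X)) := by ring
          _ ≤ (2 ^ N * c ^ (∑ i, dg (φ i))) * (A * (u ^ (∑ i, dg (φ i)) * X)) :=
            mul_le_mul_of_nonneg_right h3 (mul_nonneg hA0 (mul_nonneg hu hX0))
          _ ≤ (2 ^ N * c ^ (∑ i, dg (φ i))) *
              ((∏ i, (a (φ i) : ℝ)) * (u ^ (∑ i, dg (φ i)) * X)) := by
            refine mul_le_mul_of_nonneg_left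
              (mul_le_mul_of_nonneg_right h2 (mul_nonneg hu hX0)) ?_
            have : 0 ≤ c := by linarith
            positivity
          _ = 2 ^ N * ((∏ i, (a (φ i) : ℝ)) * (c * u) ^ (∑ i, dg (φ i)) * X) := by
            rw [mul_pow]
            ring
          _ ≤ _ := mul_le_mul_of_nonneg_left h1 (by positivity))
      ht0 ht1
    calc _ = t ^ (∑ i, dg (φ i)) * (A *
          qf Q s m (curve (fun j : Fin (m + 1) => (1 : ℝ) ^ (j : ℕ) • coef G dg aP m φ j) t)) := by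
          rw [prod_wtg, hview]
          ring
      _ ≤ _ := h
  · push Not at hbig
    have h1 := hper t ht0 ht1
    have h2 : (2 : ℝ) ≤ 2 ^ (N + 1) := by
      calc (2 : ℝ) = 2 ^ 1 := by norm_num
        _ ≤ 2 ^ (N + 1) := pow_le_pow_right₀ (by norm_num) (by omega)
    have h3 : 2 * Bd ≤ 2 ^ (N + 1) * Bd * δ := by
      calc 2 * Bd ≤ 2 ^ (N + 1) * Bd := mul_le_mul_of_nonneg_right h2 hBd
        _ = 2 ^ (N + 1) * Bd * 1 := by ring
        _ ≤ _ := mul_le_mul_of_nonneg_left (by linarith) (by positivity)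
    have h4 : 0 ≤ 2 * K * (8 * Bd * (2 * ((N : ℝ) + 1)) ^ N) * t ^ 4 := by
      positivity
    linarith

variable {G : B → B → B → Bool} {dg aP a1 a2 a3 : B → ℕ} {b1 b2 : B → B} {S μ κ : ℝ}
  {dev : B → ℕ} {N : ℕ} {Q : (s m : ℕ) → Flag s m → Flag s m → ℝ}
  {c : (m : ℕ) → Flag 1 m → ℝ} {lam : ℝ} {sl : (Fin N → B) → ℝ}

theorem key2 [DecidableEq B] (Y : Sys G dg aP a1 a2 a3 b1 b2 S μ κ) (hQ : IsPSD Q) {Bd δ : ℝ}
    (hBd : 0 ≤ Bd) (hδ0 : 0 ≤ δ) {s m : ℕ} (hsm : s + 2 * m ≤ N)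
    (φ : Fin s → B) {K : ℝ} (hK0 : 0 ≤ K)
    (hK : ∀ (q : (Flag s m → ℝ) → ℝ), IsForm q →
      ∀ (x : Fin (m + 1) → Flag s m → ℝ) (j₀ : ℕ) (C : ℝ),
      (∀ j : Fin (m + 1), (j : ℕ) < j₀ → x j = 0) →
      (∀ i, q (curve x (node m i)) ≤ C) →
      ∀ t, 0 ≤ t → t ≤ 1 → q (curve x t) ≤ K * C * t ^ (2 * j₀))
    (hper : ∀ u, 0 < u → u ≤ 1 →
      (∏ i, wtg dg aP u (φ i)) * qf Q s m (view G m φ (wtg dg aP u)) ≤ 2 * Bd)
    (hext : ∀ (W : ℝ → B → ℝ), ((W = fun t => wtg dg a1 t) ∨ (W = fun t => wtg dg a2 t) ∨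
      (W = fun t => wtg dg a3 (t / 2))) → ∀ u, 0 < u → u ≤ 1 →
      (∏ i, W u (φ i)) * qf Q s m (view G m φ (W u)) ≤ δ * Bd)
    {t : ℝ} (ht0 : 0 < t) (ht1 : t ≤ 1) :
    (∏ i, wtg dg aP t (φ i)) * qf Q s m (view G m φ (wtg dg aP t)) ≤
      2 ^ (N + 1) * Bd * δ + 2 * K * (8 * Bd * (2 * (N + 1)) ^ N) * t ^ 4 := by
  by_cases hz : ∃ i, aP (φ i) = 0
  · obtain ⟨i, hi⟩ := hz
    have h0 : ∏ i, wtg dg aP t (φ i) = 0 := by
      refine prod_eq_zero (mem_univ i) ?_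
      unfold wtg
      rw [hi]
      norm_num
    rw [h0, zero_mul]
    have h1 : 0 ≤ 2 ^ (N + 1) * Bd * δ := mul_nonneg (by positivity) hδ0
    have h2 : 0 ≤ 2 * K * (8 * Bd * (2 * ((N : ℝ) + 1)) ^ N) * t ^ 4 := by
      positivity
    linarith
  push Not at hz
  have large1 : ∀ x, dg x = 0 → a1 x = aP x := fun x hx => by
    have h1 := Y.comp1.supp x
    rwa [Y.comp1.fix x hx] at h1
  have large2 : ∀ x, dg x = 0 → a2 x = aP x := fun x hx => by
    have h1 := Y.comp2.supp x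
    rwa [Y.comp2.fix x hx] at h1
  have e1 : ∀ u, 0 < u → u ≤ 1 → (∏ i, wtg dg a1 (1 * u) (φ i)) *
      qf Q s m (view G m φ (wtg dg a1 (1 * u))) ≤ δ * Bd := by
    intro u h0 h1
    rw [one_mul]
    exact hext _ (Or.inl rfl) u h0 h1
  have e2 : ∀ u, 0 < u → u ≤ 1 → (∏ i, wtg dg a2 (1 * u) (φ i)) *
      qf Q s m (view G m φ (wtg dg a2 (1 * u))) ≤ δ * Bd := by
    intro u h0 h1
    rw [one_mul]
    exact hext _ (Or.inr (Or.inl rfl)) u h0 h1
  have e3 : ∀ u, 0 < u → u ≤ 1 → (∏ i, wtg dg a3 (1 / 2 * u) (φ i)) *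
      qf Q s m (view G m φ (wtg dg a3 (1 / 2 * u))) ≤ δ * Bd := by
    intro u h0 h1
    rw [show (1 / 2 : ℝ) * u = u / 2 by ring]
    exact hext _ (Or.inr (Or.inr rfl)) u h0 h1
  by_cases hk : ∑ i, dg (φ i) ≤ 1
  · by_cases h1 : ∀ i, Ok G dg aP b1 (φ i) ∧ aP (φ i) ≤ a1 (φ i)
    · refine key_fam2 Y.dg_le hQ hBd (by norm_num) (j₀ := 2) hsm (fun i => (h1 i).2) ?_
        (by omega) hK0 hK hper e1 ht0 ht1
      intro j hj
      rw [one_pow, one_smul, one_smul]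
      have hj' : (j : ℕ) = 0 ∨ (j : ℕ) = 1 := by omega
      rcases hj' with hj' | hj'
      · rw [hj']
        exact coef_zero (fun b hb => (large1 b hb).symm) m φ
      · rw [hj']
        exact coef_one Y.symm Y.comp1 m φ (fun i => (h1 i).1) hk Y.large1
    · push Not at h1
      obtain ⟨i₀, hi₀⟩ := h1
      have h3 : ¬ (Ok G dg aP b1 (φ i₀) ∧ aP (φ i₀) ≤ a1 (φ i₀)) := fun h =>
        absurd h.2 (not_le.2 (hi₀ h.1))
      have h4 : dg (φ i₀) = 1 := by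
        have h5 := Y.dg_le (φ i₀)
        by_contra hcon
        have h6 : dg (φ i₀) = 0 := by omega
        exact h3 ⟨Y.large1 _ h6, (large1 _ h6).ge⟩
      have h6 : ∀ i, Ok G dg aP b2 (φ i) ∧ aP (φ i) ≤ a2 (φ i) := by
        intro i
        by_cases hi : i = i₀
        · rw [hi]
          exact Y.tiny _ (hz i₀) h3
        · have h7 : dg (φ i₀) + ∑ i ∈ univ.erase i₀, dg (φ i) = ∑ i, dg (φ i) :=
            add_sum_erase univ (fun i => dg (φ i)) (mem_univ i₀)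
          have h8 : dg (φ i) ≤ ∑ i ∈ univ.erase i₀, dg (φ i) :=
            single_le_sum (f := fun i => dg (φ i)) (fun i _ => Nat.zero_le _)
              (mem_erase.2 ⟨hi, mem_univ i⟩)
          have h9 : dg (φ i) = 0 := by omega
          exact ⟨Y.large2 _ h9, (large2 _ h9).ge⟩
      refine key_fam2 Y.dg_le hQ hBd (by norm_num) (j₀ := 2) hsm (fun i => (h6 i).2) ?_
        (by omega) hK0 hK hper e2 ht0 ht1
      intro j hj
      rw [one_pow, one_smul, one_smul]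
      have hj' : (j : ℕ) = 0 ∨ (j : ℕ) = 1 := by omega
      rcases hj' with hj' | hj'
      · rw [hj']
        exact coef_zero (fun b hb => (large2 b hb).symm) m φ
      · rw [hj']
        exact coef_one Y.symm Y.comp2 m φ (fun i => (h6 i).1) hk Y.large2
  · refine key_fam2 Y.dg_le hQ hBd le_rfl (j₀ := 1) hsm (fun i => Y.a3_ge _) ?_ (by omega)
      hK0 hK hper e3 ht0 ht1
    intro j hj
    have hj' : (j : ℕ) = 0 := by omega
    rw [hj', pow_zero, pow_zero, one_smul, one_smul]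
    exact coef_zero (fun b hb => (Y.a3_large b hb).symm) m φ

/-! ### Powers -/

theorem pow_diff {S μ t : ℝ} (hS : 1 ≤ S) (hμ : 0 ≤ μ) (ht0 : 0 ≤ t) (ht1 : t ≤ 1) {k N : ℕ}
    (hk : k ≤ N) : |(S * (1 + μ * t)) ^ k - S ^ k| ≤ t * (S * (1 + μ)) ^ N := by
  have h1 : (1 + μ * t) ^ k ≤ 1 + t * ((1 + μ) ^ k - 1) := by
    clear hk
    induction k with
    | zero => simp
    | succ k ih =>
      have h2 : 0 ≤ 1 + μ * t := by positivity
      have h3 : (1 : ℝ) ≤ (1 + μ) ^ k := one_le_pow₀ (by linarith)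
      have h4 : t ^ 2 ≤ t := by nlinarith
      calc (1 + μ * t) ^ (k + 1) = (1 + μ * t) ^ k * (1 + μ * t) := pow_succ _ _
        _ ≤ (1 + t * ((1 + μ) ^ k - 1)) * (1 + μ * t) := mul_le_mul_of_nonneg_right ih h2
        _ = 1 + μ * t + t * ((1 + μ) ^ k - 1) + μ * ((1 + μ) ^ k - 1) * t ^ 2 := by ring
        _ ≤ 1 + μ * t + t * ((1 + μ) ^ k - 1) + μ * ((1 + μ) ^ k - 1) * t := by
            have := mul_le_mul_of_nonneg_left h4 (mul_nonneg hμ (sub_nonneg.2 h3))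
            linarith
        _ = 1 + t * ((1 + μ) ^ (k + 1) - 1) := by ring
  have h2 : 1 ≤ (1 + μ * t) ^ k := one_le_pow₀ (by nlinarith [mul_nonneg hμ ht0])
  have hSk : 0 ≤ S ^ k := by positivity
  rw [mul_pow, abs_of_nonneg (by nlinarith)]
  calc S ^ k * (1 + μ * t) ^ k - S ^ k = S ^ k * ((1 + μ * t) ^ k - 1) := by ring
    _ ≤ S ^ k * (t * ((1 + μ) ^ k - 1)) := mul_le_mul_of_nonneg_left (by linarith) hSk
    _ ≤ S ^ k * (t * (1 + μ) ^ k) := by
        refine mul_le_mul_of_nonneg_left (mul_le_mul_of_nonneg_left (by linarith) ht0) hSk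
    _ = t * (S * (1 + μ)) ^ k := by rw [mul_pow]; ring
    _ ≤ t * (S * (1 + μ)) ^ N :=
        mul_le_mul_of_nonneg_left (pow_le_pow_right₀ (by nlinarith) hk) ht0

/-! ### The estimate -/

/-- A bound for all the degree terms. -/
noncomputable def ebd (S μ κ : ℝ) (N : ℕ) (D C : ℝ) : ℝ :=
  (N : ℝ) * (2 * ((S * (1 + μ)) ^ N * (C * kon S μ κ N D)))

theorem kon_nonneg {D : ℝ} (hS : 1 ≤ S) (hμ : 0 ≤ μ) (hκ : 0 ≤ κ) (hD : 0 ≤ D) :
    0 ≤ kon S μ κ N D := by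
  unfold kon
  positivity

/-- The sum of the degree terms. -/
noncomputable def lts (G : B → B → B → Bool) (c : (m : ℕ) → Flag 1 m → ℝ) (N : ℕ)
    (W : B → ℝ) : ℝ :=
  ∑ m ∈ range (N - 3), tot W ^ (N - (m + 4)) * lt G c m W

/-- The sum of the third order coefficients. -/
noncomputable def lams (G : B → B → B → Bool) (dg a : B → ℕ) (S κ : ℝ) (dev : B → ℕ)
    (c : (m : ℕ) → Flag 1 m → ℝ) (N : ℕ) : ℝ :=
  ∑ m ∈ range (N - 3), S ^ (N - (m + 4)) * lam3 G dg a S κ dev c m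

theorem DSys.lts_bound (Y : DSys G dg aP a1 a2 a3 b1 b2 S μ κ dev) (hS : 1 ≤ S) (hμ : 0 ≤ μ)
    (hκ : 0 ≤ κ) {C : ℝ} (hC0 : 0 ≤ C) (hc : ∀ m F, |c m F| ≤ C) {t : ℝ}
    (ht0 : 0 ≤ t) (ht1 : t ≤ 1) :
    |lts G c N (wtg dg aP t) - t ^ 3 * lams G dg aP S κ dev c N| ≤
      t ^ 4 * ebd S μ κ N (∑ b, (dev b : ℝ)) C ∧
    |lts G c N (wtg dg aP t)| ≤ ebd S μ κ N (∑ b, (dev b : ℝ)) C := by
  set k0 := kon S μ κ N (∑ b, (dev b : ℝ)) with hk0
  have hk0' : 0 ≤ k0 := kon_nonneg hS hμ hκ (sum_nonneg fun b _ => Nat.cast_nonneg _)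
  set M : ℝ := (S * (1 + μ)) ^ N with hM
  have hM0 : 0 ≤ M := by positivity
  have hCk : 0 ≤ C * k0 := mul_nonneg hC0 hk0'
  have htot : tot (wtg dg aP t) = S * (1 + μ * t) := Y.sys.totP t
  have hcard : ∀ X : ℝ, 0 ≤ X → (((N - 3 : ℕ) : ℝ)) * X ≤ (N : ℝ) * X := by
    intro X hX
    refine mul_le_mul_of_nonneg_right ?_ hX
    exact_mod_cast Nat.sub_le N 3
  constructor
  · unfold lts lams
    rw [mul_sum, ← sum_sub_distrib]
    refine (abs_sum_le_sum_abs _ _).trans ?_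
    have hterm : ∀ m ∈ range (N - 3),
        |tot (wtg dg aP t) ^ (N - (m + 4)) * lt G c m (wtg dg aP t) -
          t ^ 3 * (S ^ (N - (m + 4)) * lam3 G dg aP S κ dev c m)| ≤
        2 * (M * (C * k0)) * t ^ 4 := by
      intro m hm
      rw [mem_range] at hm
      have h1 := Y.lt_bound (N := N) hS hμ hκ hC0 (m := m) (by omega) (hc m) ht0 ht1
      rw [htot]
      set T : ℝ := (S * (1 + μ * t)) ^ (N - (m + 4)) with hT
      have hT0 : 0 ≤ T := by positivity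
      have hT1 : T ≤ M := pow_le_big hS hμ ht0 ht1 _ (Nat.sub_le _ _)
      have h2 := pow_diff hS hμ ht0 ht1 (Nat.sub_le N (m + 4))
      rw [← hT, ← hM] at h2
      have e1 : T * lt G c m (wtg dg aP t) - t ^ 3 * (S ^ (N - (m + 4)) *
          lam3 G dg aP S κ dev c m) =
          T * (lt G c m (wtg dg aP t) - t ^ 3 * lam3 G dg aP S κ dev c m) +
            t ^ 3 * ((T - S ^ (N - (m + 4))) * lam3 G dg aP S κ dev c m) := by ring
      rw [e1]
      refine (abs_add_le _ _).trans ?_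
      rw [abs_mul, abs_mul, abs_mul, abs_of_nonneg hT0, abs_of_nonneg (show (0:ℝ) ≤ t ^ 3 by positivity)]
      have e2 : T * |lt G c m (wtg dg aP t) - t ^ 3 * lam3 G dg aP S κ dev c m| ≤
          M * (t ^ 4 * (C * k0)) := mul_le_mul hT1 h1.1 (abs_nonneg _) hM0
      have e3 : t ^ 3 * (|T - S ^ (N - (m + 4))| * |lam3 G dg aP S κ dev c m|) ≤
          t ^ 3 * ((t * M) * (C * k0)) :=
        mul_le_mul_of_nonneg_left (mul_le_mul h2 h1.2 (abs_nonneg _) (by positivity))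
          (by positivity)
      calc _ ≤ M * (t ^ 4 * (C * k0)) + t ^ 3 * ((t * M) * (C * k0)) := add_le_add e2 e3
        _ = _ := by ring
    refine (sum_le_sum hterm).trans ?_
    rw [sum_const, card_range, nsmul_eq_mul]
    refine (hcard _ (by positivity)).trans (le_of_eq ?_)
    unfold ebd
    ring
  · unfold lts
    refine (abs_sum_le_sum_abs _ _).trans ?_
    have hterm : ∀ m ∈ range (N - 3),
        |tot (wtg dg aP t) ^ (N - (m + 4)) * lt G c m (wtg dg aP t)| ≤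
        2 * (M * (C * k0)) := by
      intro m hm
      rw [mem_range] at hm
      have h1 := Y.lt_bound (N := N) hS hμ hκ hC0 (m := m) (by omega) (hc m) ht0 ht1
      rw [htot]
      set T : ℝ := (S * (1 + μ * t)) ^ (N - (m + 4)) with hT
      have hT0 : 0 ≤ T := by positivity
      have hT1 : T ≤ M := pow_le_big hS hμ ht0 ht1 _ (Nat.sub_le _ _)
      rw [abs_mul, abs_of_nonneg hT0]
      have h3 : |lt G c m (wtg dg aP t)| ≤ 2 * (C * k0) := by
        have e1 : lt G c m (wtg dg aP t) =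
            (lt G c m (wtg dg aP t) - t ^ 3 * lam3 G dg aP S κ dev c m) +
              t ^ 3 * lam3 G dg aP S κ dev c m := by ring
        rw [e1]
        refine (abs_add_le _ _).trans ?_
        rw [abs_mul, abs_of_nonneg (show (0:ℝ) ≤ t ^ 3 by positivity)]
        have h4 : t ^ 4 ≤ 1 := pow_le_one₀ ht0 ht1
        have h5 : t ^ 3 ≤ 1 := pow_le_one₀ ht0 ht1
        have h6 : t ^ 4 * (C * k0) ≤ 1 * (C * k0) := mul_le_mul_of_nonneg_right h4 hCk
        have h7 : t ^ 3 * |lam3 G dg aP S κ dev c m| ≤ 1 * (C * k0) :=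
          mul_le_mul h5 h1.2 (abs_nonneg _) (by norm_num)
        have h8 := h1.1
        linarith
      calc T * |lt G c m (wtg dg aP t)| ≤ M * (2 * (C * k0)) :=
            mul_le_mul hT1 h3 (abs_nonneg _) hM0
        _ = _ := by ring
    refine (sum_le_sum hterm).trans ?_
    rw [sum_const, card_range, nsmul_eq_mul]
    refine (hcard _ (by positivity)).trans (le_of_eq ?_)
    unfold ebd
    ring

theorem DSys.per_term (Y : DSys G dg aP a1 a2 a3 b1 b2 S μ κ dev) (Ce : CertD G N Q c lam sl)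
    (hS : 1 ≤ S) (hμ : 0 ≤ μ) (hκ : 0 ≤ κ) (hlam : lam ≤ 2) {C : ℝ} (hC0 : 0 ≤ C)
    (hc : ∀ m F, |c m F| ≤ C) {t : ℝ} (ht0 : 0 ≤ t) (ht1 : t ≤ 1) {s m : ℕ}
    (hsm : s + 2 * m ≤ N) (φ : Fin s → B) :
    (∏ i, wtg dg aP t (φ i)) * qf Q s m (view G m φ (wtg dg aP t)) ≤
      2 * ((S * (1 + μ)) ^ N + ebd S μ κ N (∑ b, (dev b : ℝ)) C) := by
  have hW := wtg_nonneg dg aP ht0
  have hone := one_le_tot hS hμ ht0 (t := t)
  have htot : tot (wtg dg aP t) = S * (1 + μ * t) := Y.sys.totP t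
  have hTN : 0 < tot (wtg dg aP t) ^ N := by
    rw [htot]
    positivity
  have heq := Ce.eq (wtg dg aP t)
  have hl := (Y.lts_bound (N := N) hS hμ hκ hC0 hc ht0 ht1).2
  have hl2 := (abs_le.1 hl).1
  have hE0 : 0 ≤ ebd S μ κ N (∑ b, (dev b : ℝ)) C := (abs_nonneg _).trans hl
  have hlt : lts G c N (wtg dg aP t) =
      ∑ m ∈ range (N - 3), tot (wtg dg aP t) ^ (N - (m + 4)) * lt G c m (wtg dg aP t) := rfl
  rw [← hlt] at heq
  have heq2 : tot (wtg dg aP t) ^ (N - 3) * Pool.Agent.Zk14.Bar.dens G (wtg dg aP t) +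
        (∑ s ∈ range (N + 1), ∑ m ∈ range (N + 1),
          if s + 2 * m ≤ N then tot (wtg dg aP t) ^ (N - (s + 2 * m)) *
            sos G Q s m (wtg dg aP t) else 0) +
        ∑ τ : Fin N → B, (∏ i, wtg dg aP t (τ i)) * sl τ =
      (lam - lts G c N (wtg dg aP t) / tot (wtg dg aP t) ^ N) * tot (wtg dg aP t) ^ N := by
    rw [sub_mul, div_mul_cancel₀ _ hTN.ne']
    linarith
  have h := term_le Ce.psd Ce.slack hW (by rw [htot]; exact hone) heq2 hsm φ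
  rw [sub_mul, div_mul_cancel₀ _ hTN.ne'] at h
  have hd : 0 ≤ Pool.Agent.Zk14.Bar.dens G (wtg dg aP t) := by
    unfold Pool.Agent.Zk14.Bar.dens
    refine sum_nonneg fun x _ => sum_nonneg fun y _ => sum_nonneg fun z _ => ?_
    refine mul_nonneg (mul_nonneg (mul_nonneg (hW x) (hW y)) (hW z)) ?_
    unfold bi
    cases G x y z <;> norm_num
  have h1 : 0 ≤ tot (wtg dg aP t) ^ (N - 3) * Pool.Agent.Zk14.Bar.dens G (wtg dg aP t) := by
    rw [htot]
    exact mul_nonneg (pow_nonneg (by linarith) _) hd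
  rw [htot] at h h1 hTN
  have h3 := pow_le_big hS hμ ht0 ht1 N (N := N) le_rfl
  nlinarith

theorem DSys.slack_P (Y : DSys G dg aP a1 a2 a3 b1 b2 S μ κ dev) (Ce : CertD G N Q c lam sl)
    (hS : 1 ≤ S) (hμ : 0 ≤ μ) {t : ℝ} (ht0 : 0 < t) (ht1 : t ≤ 1) :
    ∑ τ : Fin N → B, (∏ i, wtg dg aP t (τ i)) * sl τ ≤
      2 ^ N * (S * (1 + μ)) ^ N * (lam - (1 - 4 / S ^ 2)) := by
  have h1 : ∀ b, wtg dg aP t b ≤ 2 * wtg dg a3 (t / 2) b := by
    intro b
    unfold wtg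
    have h2 : (aP b : ℝ) ≤ a3 b := by exact_mod_cast Y.sys.a3_ge b
    have h3 : (0 : ℝ) ≤ a3 b := Nat.cast_nonneg _
    have h4 : dg b = 0 ∨ dg b = 1 := by have := Y.sys.dg_le b; omega
    rcases h4 with h4 | h4 <;> rw [h4]
    · rw [pow_zero, pow_zero]
      linarith
    · rw [pow_one, pow_one]
      nlinarith
  have h2 : ∀ τ : Fin N → B, ∏ i, wtg dg aP t (τ i) ≤
      2 ^ N * ∏ i, wtg dg a3 (t / 2) (τ i) := by
    intro τ
    calc ∏ i, wtg dg aP t (τ i) ≤ ∏ i, (2 * wtg dg a3 (t / 2) (τ i)) :=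
          prod_le_prod (fun i _ => wtg_nonneg _ _ ht0.le _) fun i _ => h1 _
      _ = _ := by
          rw [prod_mul_distrib, prod_const, card_univ, Fintype.card_fin]
  calc ∑ τ : Fin N → B, (∏ i, wtg dg aP t (τ i)) * sl τ
      ≤ ∑ τ : Fin N → B, (2 ^ N * ∏ i, wtg dg a3 (t / 2) (τ i)) * sl τ :=
        sum_le_sum fun τ _ => mul_le_mul_of_nonneg_right (h2 τ) (Ce.slack τ)
    _ = 2 ^ N * ∑ τ : Fin N → B, (∏ i, wtg dg a3 (t / 2) (τ i)) * sl τ := by
        rw [mul_sum]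
        exact sum_congr rfl fun τ _ => by ring
    _ ≤ 2 ^ N * ((lam - (1 - 4 / S ^ 2)) * (S * (1 + μ * t)) ^ N) :=
        mul_le_mul_of_nonneg_left (Ce.ext_slack hS Y.ext3 ht0.le) (by positivity)
    _ ≤ 2 ^ N * ((lam - (1 - 4 / S ^ 2)) * (S * (1 + μ)) ^ N) :=
        mul_le_mul_of_nonneg_left (mul_le_mul_of_nonneg_left
          (pow_le_big hS hμ ht0.le ht1 N le_rfl) (Ce.delta_nonneg hS Y.ext3)) (by positivity)
    _ = _ := by ring

/-- The constant of the final estimate. -/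
noncomputable def fcon (S μ κ : ℝ) (N : ℕ) (D C K card : ℝ) : ℝ :=
  ((N : ℝ) + 1) * (N + 1) * ((S * (1 + μ)) ^ N * ((card + 1) ^ N *
    (2 ^ (N + 1) * ((S * (1 + μ)) ^ N + ebd S μ κ N D C) +
      2 * K * (8 * ((S * (1 + μ)) ^ N + ebd S μ κ N D C) * (2 * (N + 1)) ^ N)))) +
    2 ^ N * (S * (1 + μ)) ^ N + (S * (1 + μ)) ^ N + ebd S μ κ N D C + κ * (S * (1 + μ)) ^ N

theorem DSys.final [DecidableEq B] (Y : DSys G dg aP a1 a2 a3 b1 b2 S μ κ dev)
    (Ce : CertD G N Q c lam sl)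
    (hS : 1 ≤ S) (hμ : 0 ≤ μ) (hκ : 0 ≤ κ) (hlam : lam ≤ 2) {C : ℝ} (hC0 : 0 ≤ C)
    (hc : ∀ m F, |c m F| ≤ C) {K : ℝ} (hK0 : 0 ≤ K)
    (hK : ∀ (s m : ℕ), s + 2 * m ≤ N → ∀ (q : (Flag s m → ℝ) → ℝ), IsForm q →
      ∀ (x : Fin (m + 1) → Flag s m → ℝ) (j₀ : ℕ) (C : ℝ),
      (∀ j : Fin (m + 1), (j : ℕ) < j₀ → x j = 0) →
      (∀ i, q (curve x (node m i)) ≤ C) →
      ∀ t, 0 ≤ t → t ≤ 1 → q (curve x t) ≤ K * C * t ^ (2 * j₀))
    {t : ℝ} (ht0 : 0 < t) (ht1 : t ≤ 1) :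
    t ^ 3 * |κ * S ^ (N - 3) - lams G dg aP S κ dev c N| ≤
      fcon S μ κ N (∑ b, (dev b : ℝ)) C K (Fintype.card B) *
      ((lam - (1 - 4 / S ^ 2)) + t ^ 4) := by
  have hδ := Ce.delta_nonneg hS Y.ext1
  set δ := lam - (1 - 4 / S ^ 2) with hδdef
  set Bd : ℝ := (S * (1 + μ)) ^ N with hBd
  have hBd0 : 0 ≤ Bd := by positivity
  set E : ℝ := ebd S μ κ N (∑ b, (dev b : ℝ)) C with hE
  have hlts := Y.lts_bound (N := N) hS hμ hκ hC0 hc ht0.le ht1
  rw [← hE] at hlts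
  have hE0 : 0 ≤ E := (abs_nonneg _).trans hlts.2
  set B2 : ℝ := Bd + E with hB2
  have hB20 : 0 ≤ B2 := by positivity
  set C₀ : ℝ := 8 * B2 * (2 * ((N : ℝ) + 1)) ^ N with hC₀
  have hC₀0 : 0 ≤ C₀ := by positivity
  have ht4 : 0 ≤ t ^ 4 := by positivity
  set M : ℝ := 2 ^ (N + 1) * B2 * δ + 2 * K * C₀ * t ^ 4 with hM
  have hM0 : 0 ≤ M := by positivity
  have hone : (1 : ℝ) ≤ S * (1 + μ * t) := one_le_tot hS hμ ht0.le
  have hpos : (0 : ℝ) ≤ S * (1 + μ * t) := by linarith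
  have htot : tot (wtg dg aP t) = S * (1 + μ * t) := Y.sys.totP t
  have hkey : ∀ s m (hsm : s + 2 * m ≤ N) (φ : Fin s → B),
      (∏ i, wtg dg aP t (φ i)) * qf Q s m (view G m φ (wtg dg aP t)) ≤ M := by
    intro s m hsm φ
    refine key2 Y.sys Ce.psd hB20 hδ hsm φ hK0 (hK s m hsm) ?_ ?_ ht0 ht1
    · intro u hu0 hu1
      exact Y.per_term Ce hS hμ hκ hlam hC0 hc hu0.le hu1 hsm φ
    · intro W hW u hu0 hu1
      have hEW : ExtrD G S μ W := by
        rcases hW with rfl | rfl | rfl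
        · exact Y.ext1
        · exact Y.ext2
        · exact Y.ext3
      have h1 := Ce.ext_term hS hμ hEW hu0.le hu1 hsm φ
      refine h1.trans (mul_le_mul_of_nonneg_left ?_ hδ)
      linarith
  have hsos : ∀ s m, (if s + 2 * m ≤ N then
      tot (wtg dg aP t) ^ (N - (s + 2 * m)) * sos G Q s m (wtg dg aP t) else 0) ≤
      Bd * ((Fintype.card B + 1 : ℝ) ^ N * M) := by
    intro s m
    split_ifs with hsm
    · rw [htot]
      have h1 : sos G Q s m (wtg dg aP t) ≤ (Fintype.card B + 1 : ℝ) ^ N * M := by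
        unfold sos
        calc ∑ φ : Fin s → B, (∏ i, wtg dg aP t (φ i)) *
                qf Q s m (view G m φ (wtg dg aP t))
            ≤ ∑ φ : Fin s → B, M := sum_le_sum fun φ _ => hkey s m hsm φ
          _ = (Fintype.card B : ℝ) ^ s * M := by
              rw [sum_const, card_univ, nsmul_eq_mul]
              simp
          _ ≤ (Fintype.card B + 1 : ℝ) ^ s * M := by
              refine mul_le_mul_of_nonneg_right (pow_le_pow_left₀ (by positivity) ?_ s) hM0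
              linarith
          _ ≤ (Fintype.card B + 1 : ℝ) ^ N * M := by
              refine mul_le_mul_of_nonneg_right (pow_le_pow_right₀ ?_ ?_) hM0
              · have : (0 : ℝ) ≤ Fintype.card B := Nat.cast_nonneg _
                linarith
              · omega
      exact mul_le_mul (pow_le_big hS hμ ht0.le ht1 _ (Nat.sub_le _ _)) h1
        (sos_nonneg G Ce.psd s m (wtg_nonneg _ _ ht0.le)) (by positivity)
    · positivity
  set SO : ℝ := ∑ s ∈ range (N + 1), ∑ m ∈ range (N + 1), (if s + 2 * m ≤ N then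
      tot (wtg dg aP t) ^ (N - (s + 2 * m)) * sos G Q s m (wtg dg aP t) else 0) with hSO
  have hSO0 : 0 ≤ SO :=
    sum_nonneg fun s _ => sum_nonneg fun m _ => big_nonneg G Ce.psd (wtg_nonneg _ _ ht0.le) s m
  have hsum : SO ≤ ((N : ℝ) + 1) * (N + 1) * (Bd * ((Fintype.card B + 1 : ℝ) ^ N * M)) := by
    calc _ ≤ ∑ s ∈ range (N + 1), ∑ m ∈ range (N + 1), Bd * ((Fintype.card B + 1 : ℝ) ^ N * M) :=
          sum_le_sum fun s _ => sum_le_sum fun m _ => hsos s m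
      _ = _ := by
          rw [sum_const, sum_const, card_range, nsmul_eq_mul, nsmul_eq_mul]
          push_cast
          ring
  set SL : ℝ := ∑ τ : Fin N → B, (∏ i, wtg dg aP t (τ i)) * sl τ with hSL
  have hSL0 : 0 ≤ SL := sum_nonneg fun τ _ =>
    mul_nonneg (prod_nonneg fun i _ => wtg_nonneg _ _ ht0.le _) (Ce.slack τ)
  have hsl : SL ≤ 2 ^ N * Bd * δ := Y.slack_P Ce hS hμ ht0 ht1
  have heq := Ce.eq (wtg dg aP t)
  have hltdef : (∑ m ∈ range (N - 3), tot (wtg dg aP t) ^ (N - (m + 4)) *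
      lt G c m (wtg dg aP t)) = lts G c N (wtg dg aP t) := rfl
  rw [hltdef, ← hSO, ← hSL, htot, Y.sys.densP, mul_sub, ext_value Ce.hN (by linarith)] at heq
  set L := lts G c N (wtg dg aP t) with hL
  have hTN : 0 ≤ (S * (1 + μ * t)) ^ N := by positivity
  have hTB : (S * (1 + μ * t)) ^ N ≤ Bd := pow_le_big hS hμ ht0.le ht1 N le_rfl
  have hlamT : lam * (S * (1 + μ * t)) ^ N - (1 - 4 / S ^ 2) * (S * (1 + μ * t)) ^ N =
      δ * (S * (1 + μ * t)) ^ N := by rw [hδdef]; ring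
  have hX : (S * (1 + μ * t)) ^ (N - 3) * (κ * t ^ 3) - L =
      SO + SL - δ * (S * (1 + μ * t)) ^ N := by linarith
  have hδT : δ * (S * (1 + μ * t)) ^ N ≤ δ * Bd := mul_le_mul_of_nonneg_left hTB hδ
  have hδT0 : 0 ≤ δ * (S * (1 + μ * t)) ^ N := mul_nonneg hδ hTN
  have hXabs : |(S * (1 + μ * t)) ^ (N - 3) * (κ * t ^ 3) - L| ≤ SO + SL + δ * Bd := by
    rw [hX, abs_le]
    constructor <;> linarith
  have hpd := pow_diff hS hμ ht0.le ht1 (Nat.sub_le N 3)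
  rw [← hBd] at hpd
  have hfinal : t ^ 3 * |κ * S ^ (N - 3) - lams G dg aP S κ dev c N| ≤
      (SO + SL + δ * Bd) + t ^ 4 * E + κ * Bd * t ^ 4 := by
    have ht3 : 0 ≤ t ^ 3 := by positivity
    have e1 : t ^ 3 * (κ * S ^ (N - 3) - lams G dg aP S κ dev c N) =
        ((S * (1 + μ * t)) ^ (N - 3) * (κ * t ^ 3) - L) +
        (L - t ^ 3 * lams G dg aP S κ dev c N) -
        (κ * t ^ 3) * ((S * (1 + μ * t)) ^ (N - 3) - S ^ (N - 3)) := by ring
    have e0 : t ^ 3 * |κ * S ^ (N - 3) - lams G dg aP S κ dev c N| =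
        |t ^ 3 * (κ * S ^ (N - 3) - lams G dg aP S κ dev c N)| := by
      rw [abs_mul, abs_of_nonneg ht3]
    rw [e0, e1]
    refine (abs_sub _ _).trans ?_
    have h1 := (abs_add_le ((S * (1 + μ * t)) ^ (N - 3) * (κ * t ^ 3) - L)
      (L - t ^ 3 * lams G dg aP S κ dev c N))
    have h2 : |(κ * t ^ 3) * ((S * (1 + μ * t)) ^ (N - 3) - S ^ (N - 3))| ≤ κ * Bd * t ^ 4 := by
      rw [abs_mul, abs_of_nonneg (mul_nonneg hκ ht3)]
      calc κ * t ^ 3 * |(S * (1 + μ * t)) ^ (N - 3) - S ^ (N - 3)| ≤ κ * t ^ 3 * (t * Bd) :=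
            mul_le_mul_of_nonneg_left hpd (mul_nonneg hκ ht3)
        _ = _ := by ring
    exact add_le_add (h1.trans (add_le_add hXabs hlts.1)) h2
  refine hfinal.trans ?_
  have hMle : M ≤ (2 ^ (N + 1) * B2 + 2 * K * C₀) * (δ + t ^ 4) := by
    rw [hM]
    have e1 : 0 ≤ (2 : ℝ) ^ (N + 1) * B2 * t ^ 4 := by positivity
    have e2 : 0 ≤ 2 * K * C₀ * δ := by positivity
    nlinarith
  have e3 : (2 : ℝ) ^ N * Bd * δ ≤ 2 ^ N * Bd * (δ + t ^ 4) :=
    mul_le_mul_of_nonneg_left (by linarith) (by positivity)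
  have e4 : ((N : ℝ) + 1) * (N + 1) * (Bd * ((Fintype.card B + 1 : ℝ) ^ N * M)) ≤
      ((N : ℝ) + 1) * (N + 1) * (Bd * ((Fintype.card B + 1 : ℝ) ^ N *
        ((2 ^ (N + 1) * B2 + 2 * K * C₀) * (δ + t ^ 4)))) := by
    refine mul_le_mul_of_nonneg_left (mul_le_mul_of_nonneg_left
      (mul_le_mul_of_nonneg_left hMle (by positivity)) (by positivity)) (by positivity)
  have e5 : δ * Bd ≤ Bd * (δ + t ^ 4) := by
    have : 0 ≤ Bd * t ^ 4 := by positivity
    linarith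
  have e6 : t ^ 4 * E ≤ E * (δ + t ^ 4) := by
    have : 0 ≤ E * δ := by positivity
    linarith
  have e7 : κ * Bd * t ^ 4 ≤ κ * Bd * (δ + t ^ 4) := by
    have : 0 ≤ κ * Bd * δ := by positivity
    linarith
  have e8 : fcon S μ κ N (∑ b, (dev b : ℝ)) C K (Fintype.card B) * (δ + t ^ 4) =
      ((N : ℝ) + 1) * (N + 1) * (Bd * ((Fintype.card B + 1 : ℝ) ^ N *
        ((2 ^ (N + 1) * B2 + 2 * K * C₀) * (δ + t ^ 4)))) + 2 ^ N * Bd * (δ + t ^ 4) +
        Bd * (δ + t ^ 4) + E * (δ + t ^ 4) + κ * Bd * (δ + t ^ 4) := by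
    unfold fcon
    rw [← hBd, ← hE, ← hB2, ← hC₀]
    ring
  rw [e8]
  linarith

/-- The barrier for certificates with degree conditions: a combination of two perturbed patterns
for which the third order coefficients of the degree terms cancel. -/
theorem DSys.barrier [DecidableEq B] {aP' a1' a2' a3' : B → ℕ} {b1' b2' : B → B} {κ' : ℝ}
    {dev' : B → ℕ} (Y : DSys G dg aP a1 a2 a3 b1 b2 S μ κ dev)
    (Y' : DSys G dg aP' a1' a2' a3' b1' b2' S μ κ' dev')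
    (hS : 1 ≤ S) (hμ : 0 ≤ μ) (hκ : 0 ≤ κ) (hκ' : 0 ≤ κ') {ν ν' : ℝ}
    (hcan : ∀ (c : (m : ℕ) → Flag 1 m → ℝ) (m : ℕ),
      ν * lam3 G dg aP S κ dev c m + ν' * lam3 G dg aP' S κ' dev' c m = 0)
    (hne : ν * κ + ν' * κ' ≠ 0) (N : ℕ) (hN : 3 ≤ N) (C : ℝ) (hC0 : 0 ≤ C) :
    ∃ ε : ℝ, 0 < ε ∧
    ∀ Q : (s m : ℕ) → Flag s m → Flag s m → ℝ, IsPSD Q →
    ∀ c : (m : ℕ) → Flag 1 m → ℝ, (∀ m F, |c m F| ≤ C) → ∀ lam : ℝ,
      (∀ τ : Fin N → B, value2 Q c (Str G τ) ≤ lam) → 1 - 4 / S ^ 2 + ε ≤ lam := by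
  choose K hK0 hK using core
  set KN : ℝ := ∑ m ∈ range (N + 1), K m with hKN
  have hKN0 : 0 ≤ KN := sum_nonneg fun m _ => hK0 m
  have hKle : ∀ m, m ≤ N → K m ≤ KN := fun m hm =>
    single_le_sum (f := K) (fun m _ => hK0 m) (mem_range.2 (by omega))
  set F := fcon S μ κ N (∑ b, (dev b : ℝ)) C KN (Fintype.card B) with hF
  set F' := fcon S μ κ' N (∑ b, (dev' b : ℝ)) C KN (Fintype.card B) with hF'
  have hfc : ∀ {k D : ℝ}, 0 ≤ k → 0 ≤ D → 0 ≤ fcon S μ k N D C KN (Fintype.card B) := by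
    intro k D hk hD
    have h1 : 0 ≤ ebd S μ k N D C := by
      unfold ebd
      have := kon_nonneg (N := N) hS hμ hk hD
      positivity
    unfold fcon
    positivity
  have hF0 : 0 ≤ F := hfc hκ (sum_nonneg fun b _ => Nat.cast_nonneg _)
  have hF0' : 0 ≤ F' := hfc hκ' (sum_nonneg fun b _ => Nat.cast_nonneg _)
  set A : ℝ := |ν| * F + |ν'| * F' + 1 with hA
  have hA0 : 0 < A := by positivity
  set k : ℝ := |ν * κ + ν' * κ'| with hk
  have hk0 : 0 < k := abs_pos.2 hne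
  set η : ℝ := min 1 (k / (2 * A)) with hη
  have hη0 : 0 < η := lt_min one_pos (by positivity)
  have hη1 : η ≤ 1 := min_le_left _ _
  have hη2 : η ≤ k / (2 * A) := min_le_right _ _
  refine ⟨min 1 (k * η ^ 3 / (2 * A)), lt_min one_pos (by positivity), ?_⟩
  intro Q hQ c hc lam hlam
  by_cases h2 : lam ≤ 2
  · obtain ⟨sl, hsl, heq⟩ := evaluate2 hN Y.sys.symm hlam
    have Ce : CertD G N Q c lam sl := ⟨hN, hQ, hsl, heq⟩
    have hKK : ∀ (s m : ℕ), s + 2 * m ≤ N → ∀ (q : (Flag s m → ℝ) → ℝ), IsForm q →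
      ∀ (x : Fin (m + 1) → Flag s m → ℝ) (j₀ : ℕ) (C : ℝ),
      (∀ j : Fin (m + 1), (j : ℕ) < j₀ → x j = 0) →
      (∀ i, q (curve x (node m i)) ≤ C) →
      ∀ t, 0 ≤ t → t ≤ 1 → q (curve x t) ≤ KN * C * t ^ (2 * j₀) := by
      intro s m hsm q hq x j₀ C hx hC t ht0 ht1
      have h3 := hK m (Flag s m → ℝ) q hq x j₀ C hx hC t ht0 ht1
      have hC0 : 0 ≤ C := (hq.nonneg _).trans (hC 0)
      have h4 : K m * C * t ^ (2 * j₀) ≤ KN * C * t ^ (2 * j₀) := by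
        refine mul_le_mul_of_nonneg_right (mul_le_mul_of_nonneg_right (hKle m (by omega)) hC0) ?_
        positivity
      exact h3.trans h4
    have hf1 := Y.final Ce hS hμ hκ h2 hC0 hc hKN0 hKK hη0 hη1
    have hf2 := Y'.final Ce hS hμ hκ' h2 hC0 hc hKN0 hKK hη0 hη1
    rw [← hF] at hf1
    rw [← hF'] at hf2
    have hδ := Ce.delta_nonneg hS Y.ext1
    set δ := lam - (1 - 4 / S ^ 2) with hδdef
    set Z := κ * S ^ (N - 3) - lams G dg aP S κ dev c N with hZ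
    set Z' := κ' * S ^ (N - 3) - lams G dg aP' S κ' dev' c N with hZ'
    have hcomb : ν * Z + ν' * Z' = (ν * κ + ν' * κ') * S ^ (N - 3) := by
      have h0 : ν * lams G dg aP S κ dev c N + ν' * lams G dg aP' S κ' dev' c N = 0 := by
        unfold lams
        rw [mul_sum, mul_sum, ← sum_add_distrib]
        refine sum_eq_zero fun m _ => ?_
        have := hcan c m
        calc _ = S ^ (N - (m + 4)) * (ν * lam3 G dg aP S κ dev c m +
              ν' * lam3 G dg aP' S κ' dev' c m) := by ring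
          _ = 0 := by rw [this, mul_zero]
      calc _ = (ν * κ + ν' * κ') * S ^ (N - 3) -
            (ν * lams G dg aP S κ dev c N + ν' * lams G dg aP' S κ' dev' c N) := by
            rw [hZ, hZ']
            ring
        _ = _ := by rw [h0, sub_zero]
    have hη3 : 0 ≤ η ^ 3 := by positivity
    have hS3 : 1 ≤ S ^ (N - 3) := one_le_pow₀ hS
    have h5 : η ^ 3 * k ≤ A * (δ + η ^ 4) := by
      have h6 : k ≤ |ν * Z + ν' * Z'| := by
        rw [hcomb, abs_mul, ← hk, abs_of_nonneg (show (0:ℝ) ≤ S ^ (N - 3) by linarith)]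
        nlinarith
      have h7 : |ν * Z + ν' * Z'| ≤ |ν| * |Z| + |ν'| * |Z'| := by
        refine (abs_add_le _ _).trans ?_
        rw [abs_mul, abs_mul]
      calc η ^ 3 * k ≤ η ^ 3 * (|ν| * |Z| + |ν'| * |Z'|) :=
            mul_le_mul_of_nonneg_left (h6.trans h7) hη3
        _ = |ν| * (η ^ 3 * |Z|) + |ν'| * (η ^ 3 * |Z'|) := by ring
        _ ≤ |ν| * (F * (δ + η ^ 4)) + |ν'| * (F' * (δ + η ^ 4)) :=
            add_le_add (mul_le_mul_of_nonneg_left hf1 (abs_nonneg _))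
              (mul_le_mul_of_nonneg_left hf2 (abs_nonneg _))
        _ ≤ A * (δ + η ^ 4) := by
            rw [hA]
            have : 0 ≤ δ + η ^ 4 := by positivity
            nlinarith
    have h6 : A * η ^ 4 ≤ k * η ^ 3 / 2 := by
      have h7 : A * η ≤ k / 2 := by
        calc A * η ≤ A * (k / (2 * A)) := mul_le_mul_of_nonneg_left hη2 hA0.le
          _ = k / 2 := by field_simp
      calc A * η ^ 4 = (A * η) * η ^ 3 := by ring
        _ ≤ (k / 2) * η ^ 3 := mul_le_mul_of_nonneg_right h7 (by positivity)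
        _ = _ := by ring
    have h8 : k * η ^ 3 / 2 ≤ A * δ := by
      rw [mul_add] at h5
      linarith
    have h9 : k * η ^ 3 / (2 * A) ≤ δ := by
      rw [div_le_iff₀ (by positivity)]
      linarith
    have h10 := min_le_right (1 : ℝ) (k * η ^ 3 / (2 * A))
    linarith
  · push Not at h2
    have h10 := min_le_left (1 : ℝ) (k * η ^ 3 / (2 * A))
    have h11 : 0 ≤ 4 / S ^ 2 := by positivity
    linarith

end Pool.Agent.Zk14.BarD
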