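import Pool.Agent.Zk14.BarD.Fin

/-!
# The systems with equal degrees for the tetrahedron
-/

set_option autoImplicit false
open Finset

namespace Pool.Agent.Zk14.BarD

open Pool.Agent.Zk14.Bar (Flag IsPSD pull square value TetraFree Str mem_Str pull_Str Str_congr
  Symm3 tot bi view pat pat_symm1 pat_symm2 dg dg_le b1 b2)
open Pool.Agent.Zk14.BarM (Sys Ok Compare wtg cntg cnt1g tot_wtg dens_wtg)

/-! ### Degrees by counting -/

section count

variable {B : Type} [Fintype B]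

/-- The number of non-edges at `b` with `k` tiny blocks among the two others. -/
def cntd (G : B → B → B → Bool) (dg a : B → ℕ) (b : B) (k : ℕ) : ℕ :=
  ∑ y, ∑ z, if G b y z = false ∧ dg y + dg z = k then a y * a z else 0

theorem tdeg_wtg {G : B → B → B → Bool} {dg : B → ℕ} (hdg : ∀ x, dg x ≤ 1) (a : B → ℕ) (u : ℝ)
    (b : B) : tdeg G (wtg dg a u) b = (cntd G dg a b 0 : ℝ) + (cntd G dg a b 1 : ℝ) * u +
      (cntd G dg a b 2 : ℝ) * u ^ 2 := by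
  unfold tdeg cntd wtg
  push_cast
  simp only [sum_mul, ← sum_add_distrib]
  refine sum_congr rfl fun y _ => sum_congr rfl fun z _ => ?_
  have hy : dg y = 0 ∨ dg y = 1 := by have := hdg y; omega
  have hz : dg z = 0 ∨ dg z = 1 := by have := hdg z; omega
  cases hG : G b y z
  · rcases hy with hy | hy <;> rcases hz with hz | hz <;> simp [hy, hz, bi] <;> ring
  · simp [bi]

end count

/-! ### Comparison of the multipliers -/

section congr

variable {B : Type} [Fintype B]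

theorem cf_congr {G : B → B → B → Bool} (hG : Symm3 G) {dg a a' : B → ℕ}
    (c : (m : ℕ) → Flag 1 m → ℝ) (m : ℕ) (e : B ≃ B) (hdg : ∀ x, dg (e x) = dg x)
    (ha : ∀ x, dg x = 0 → a x = a' (e x))
    (h3 : ∀ x y z, dg x = 0 → dg y = 0 → dg z = 0 → G x y z = G (e x) (e y) (e z))
    (φ φ' : Fin 1 → B) (hφ : ∀ x y, dg x = 0 → dg y = 0 → G (φ 0) x y = G (φ' 0) (e x) (e y)) :
    cf G dg a c m φ = cf G dg a' c m φ' := by
  unfold cf
  refine Fintype.sum_equiv (Equiv.arrowCongr (Equiv.refl (Fin m)) e) _ _ fun ψ => ?_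
  have he : ∀ i, (Equiv.arrowCongr (Equiv.refl (Fin m)) e) ψ i = e (ψ i) := fun i => rfl
  simp only [he, hdg]
  by_cases h0 : ∑ i, dg (ψ i) = 0
  · rw [if_pos h0, if_pos h0]
    rw [sum_eq_zero_iff] at h0
    have h0' : ∀ i, dg (ψ i) = 0 := fun i => h0 i (mem_univ i)
    have e1 : ∏ i, (a (ψ i) : ℝ) = ∏ i, (a' (e (ψ i)) : ℝ) :=
      prod_congr rfl fun i _ => by rw [ha _ (h0' i)]
    have e2 : Str G (Sum.elim φ ψ) =
        Str G (Sum.elim φ' ((Equiv.arrowCongr (Equiv.refl (Fin m)) e) ψ)) := by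
      refine Str_congr ?_
      rintro (i | i) (j | j) (k | k) hij hik hjk
      · exact absurd (congrArg Sum.inl (Subsingleton.elim i j)) hij
      · exact absurd (congrArg Sum.inl (Subsingleton.elim i j)) hij
      · exact absurd (congrArg Sum.inl (Subsingleton.elim i k)) hik
      · rw [Subsingleton.elim i 0]
        exact hφ _ _ (h0' j) (h0' k)
      · exact absurd (congrArg Sum.inl (Subsingleton.elim j k)) hjk
      · rw [Subsingleton.elim j 0]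
        show G (ψ i) (φ 0) (ψ k) = G (e (ψ i)) (φ' 0) (e (ψ k))
        rw [hG.1, hG.1 (e (ψ i))]
        exact hφ _ _ (h0' i) (h0' k)
      · rw [Subsingleton.elim k 0]
        show G (ψ i) (ψ j) (φ 0) = G (e (ψ i)) (e (ψ j)) (φ' 0)
        rw [hG.2, hG.1, hG.2 (e (ψ i)), hG.1 (e (ψ i))]
        exact hφ _ _ (h0' i) (h0' j)
      · exact h3 _ _ _ (h0' i) (h0' j) (h0' k)
    rw [e1, e2]
  · rw [if_neg h0, if_neg h0]

end congr

/-! ### The two systems -/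

/-- The perturbed pattern, weights `1` and `2` of the tiny blocks. -/
def pA (b : Fin 15) : ℕ := ![2, 0, 1, 0, 1, 0, 2, 1, 0, 1, 2, 0, 1, 1, 0] b
/-- The first extremal pattern. -/
def qA (b : Fin 15) : ℕ := ![2, 0, 1, 0, 1, 2, 0, 1, 0, 1, 2, 0, 1, 0, 1] b
/-- The second extremal pattern. -/
def rA (b : Fin 15) : ℕ := ![0, 2, 1, 1, 0, 0, 2, 1, 1, 0, 0, 2, 1, 1, 0] b
/-- The third extremal pattern. -/
def sA (b : Fin 15) : ℕ := ![2, 2, 1, 1, 1, 2, 2, 1, 1, 1, 2, 2, 1, 1, 1] b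
/-- The deviations of the degrees. -/
def dA (b : Fin 15) : ℕ := ![0, 0, 0, 0, 8, 0, 1, 0, 0, 0, 4, 0, 0, 0, 0] b

/-- The perturbed pattern, weights `2` and `1` of the tiny blocks. -/
def pB (b : Fin 15) : ℕ := ![1, 0, 1, 0, 2, 0, 1, 1, 0, 2, 1, 0, 1, 2, 0] b
/-- The first extremal pattern. -/
def qB (b : Fin 15) : ℕ := ![1, 0, 1, 0, 2, 1, 0, 1, 0, 2, 1, 0, 1, 0, 2] b
/-- The second extremal pattern. -/
def rB (b : Fin 15) : ℕ := ![0, 1, 1, 2, 0, 0, 1, 1, 2, 0, 0, 1, 1, 2, 0] b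
/-- The third extremal pattern. -/
def sB (b : Fin 15) : ℕ := ![1, 1, 1, 2, 2, 1, 1, 1, 2, 2, 1, 1, 1, 2, 2] b
/-- The deviations of the degrees. -/
def dB (b : Fin 15) : ℕ := ![0, 0, 0, 0, 5, 0, 4, 0, 0, 0, 4, 0, 0, 0, 0] b

theorem cntA : (cntg pat dg pA 0 = 15 ∧ cntg pat dg pA 1 = 135 ∧ cntg pat dg pA 2 = 405 ∧
    cntg pat dg pA 3 = 387) ∧ (cntg pat dg qA 0 = 15 ∧ cntg pat dg qA 1 = 135 ∧
    cntg pat dg qA 2 = 405 ∧ cntg pat dg qA 3 = 405) ∧ (cntg pat dg rA 0 = 15 ∧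
    cntg pat dg rA 1 = 135 ∧ cntg pat dg rA 2 = 405 ∧ cntg pat dg rA 3 = 405) ∧
    (cntg pat dg sA 0 = 15 ∧ cntg pat dg sA 1 = 270 ∧ cntg pat dg sA 2 = 1620 ∧
    cntg pat dg sA 3 = 3240) := by decide +kernel

theorem cntB : (cntg pat dg pB 0 = 15 ∧ cntg pat dg pB 1 = 135 ∧ cntg pat dg pB 2 = 405 ∧
    cntg pat dg pB 3 = 387) ∧ (cntg pat dg qB 0 = 15 ∧ cntg pat dg qB 1 = 135 ∧
    cntg pat dg qB 2 = 405 ∧ cntg pat dg qB 3 = 405) ∧ (cntg pat dg rB 0 = 15 ∧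
    cntg pat dg rB 1 = 135 ∧ cntg pat dg rB 2 = 405 ∧ cntg pat dg rB 3 = 405) ∧
    (cntg pat dg sB 0 = 15 ∧ cntg pat dg sB 1 = 270 ∧ cntg pat dg sB 2 = 1620 ∧
    cntg pat dg sB 3 = 3240) := by decide +kernel

theorem numA : (cnt1g dg pA 0 = 3 ∧ cnt1g dg pA 1 = 9) ∧ (cnt1g dg qA 0 = 3 ∧
    cnt1g dg qA 1 = 9) ∧ (cnt1g dg rA 0 = 3 ∧ cnt1g dg rA 1 = 9) ∧
    (cnt1g dg sA 0 = 3 ∧ cnt1g dg sA 1 = 18) := by decide +kernel

theorem numB : (cnt1g dg pB 0 = 3 ∧ cnt1g dg pB 1 = 9) ∧ (cnt1g dg qB 0 = 3 ∧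
    cnt1g dg qB 1 = 9) ∧ (cnt1g dg rB 0 = 3 ∧ cnt1g dg rB 1 = 9) ∧
    (cnt1g dg sB 0 = 3 ∧ cnt1g dg sB 1 = 18) := by decide +kernel

theorem degP : ∀ b, (pA b ≠ 0 → cntd pat dg pA b 0 = 4 ∧ cntd pat dg pA b 1 = 24 ∧
      cntd pat dg pA b 2 = 36 + dA b) ∧
    (pB b ≠ 0 → cntd pat dg pB b 0 = 4 ∧ cntd pat dg pB b 1 = 24 ∧
      cntd pat dg pB b 2 = 36 + dB b) := by decide +kernel

theorem degq : ∀ b, (qA b ≠ 0 → cntd pat dg qA b 0 = 4 ∧ cntd pat dg qA b 1 = 24 ∧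
      cntd pat dg qA b 2 = 36) ∧
    (qB b ≠ 0 → cntd pat dg qB b 0 = 4 ∧ cntd pat dg qB b 1 = 24 ∧
      cntd pat dg qB b 2 = 36) := by decide +kernel

theorem degr : ∀ b, (rA b ≠ 0 → cntd pat dg rA b 0 = 4 ∧ cntd pat dg rA b 1 = 24 ∧
      cntd pat dg rA b 2 = 36) ∧
    (rB b ≠ 0 → cntd pat dg rB b 0 = 4 ∧ cntd pat dg rB b 1 = 24 ∧
      cntd pat dg rB b 2 = 36) := by decide +kernel

theorem degs : ∀ b, (cntd pat dg sA b 0 = 4 ∧ cntd pat dg sA b 1 = 48 ∧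
      cntd pat dg sA b 2 = 144) ∧
    (cntd pat dg sB b 0 = 4 ∧ cntd pat dg sB b 1 = 48 ∧
      cntd pat dg sB b 2 = 144) := by decide +kernel

theorem pat_symm : Symm3 pat := ⟨pat_symm1, pat_symm2⟩

instance (p : Fin 15 → ℕ) (β : Fin 15 → Fin 15) (x : Fin 15) : Decidable (Ok pat dg p β x) := by
  unfold Ok; infer_instance

theorem sysA : Sys pat dg pA qA rA sA b1 b2 3 3 18 := by
  refine ⟨pat_symm, dg_le, ?_, ?_, ?_, ?_, ?_, ?_, ?_,
    ?_, ?_, ?_, ?_, ?_, ?_, ?_, ?_⟩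
  · exact ⟨by decide +kernel, by decide +kernel, by decide +kernel, by decide +kernel⟩
  · exact ⟨by decide +kernel, by decide +kernel, by decide +kernel, by decide +kernel⟩
  · decide +kernel
  · decide +kernel
  · decide +kernel
  · decide +kernel
  · decide +kernel
  · intro t
    rw [tot_wtg dg_le, numA.1.1, numA.1.2]
    push_cast
    ring
  · intro t
    rw [tot_wtg dg_le, numA.2.1.1, numA.2.1.2]
    push_cast
    ring
  · intro t
    rw [tot_wtg dg_le, numA.2.2.1.1, numA.2.2.1.2]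
    push_cast
    ring
  · intro t
    rw [tot_wtg dg_le, numA.2.2.2.1, numA.2.2.2.2]
    push_cast
    ring
  · intro t
    rw [dens_wtg dg_le, cntA.1.1, cntA.1.2.1, cntA.1.2.2.1, cntA.1.2.2.2]
    push_cast
    ring
  · intro t
    rw [dens_wtg dg_le, cntA.2.1.1, cntA.2.1.2.1, cntA.2.1.2.2.1, cntA.2.1.2.2.2]
    push_cast
    ring
  · intro t
    rw [dens_wtg dg_le, cntA.2.2.1.1, cntA.2.2.1.2.1, cntA.2.2.1.2.2.1, cntA.2.2.1.2.2.2]
    push_cast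
    ring
  · intro t
    rw [dens_wtg dg_le, cntA.2.2.2.1, cntA.2.2.2.2.1, cntA.2.2.2.2.2.1, cntA.2.2.2.2.2.2]
    push_cast
    ring

theorem sysB : Sys pat dg pB qB rB sB b1 b2 3 3 18 := by
  refine ⟨pat_symm, dg_le, ?_, ?_, ?_, ?_, ?_, ?_, ?_,
    ?_, ?_, ?_, ?_, ?_, ?_, ?_, ?_⟩
  · exact ⟨by decide +kernel, by decide +kernel, by decide +kernel, by decide +kernel⟩
  · exact ⟨by decide +kernel, by decide +kernel, by decide +kernel, by decide +kernel⟩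
  · decide +kernel
  · decide +kernel
  · decide +kernel
  · decide +kernel
  · decide +kernel
  · intro t
    rw [tot_wtg dg_le, numB.1.1, numB.1.2]
    push_cast
    ring
  · intro t
    rw [tot_wtg dg_le, numB.2.1.1, numB.2.1.2]
    push_cast
    ring
  · intro t
    rw [tot_wtg dg_le, numB.2.2.1.1, numB.2.2.1.2]
    push_cast
    ring
  · intro t
    rw [tot_wtg dg_le, numB.2.2.2.1, numB.2.2.2.2]
    push_cast
    ring
  · intro t
    rw [dens_wtg dg_le, cntB.1.1, cntB.1.2.1, cntB.1.2.2.1, cntB.1.2.2.2]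
    push_cast
    ring
  · intro t
    rw [dens_wtg dg_le, cntB.2.1.1, cntB.2.1.2.1, cntB.2.1.2.2.1, cntB.2.1.2.2.2]
    push_cast
    ring
  · intro t
    rw [dens_wtg dg_le, cntB.2.2.1.1, cntB.2.2.1.2.1, cntB.2.2.1.2.2.1, cntB.2.2.1.2.2.2]
    push_cast
    ring
  · intro t
    rw [dens_wtg dg_le, cntB.2.2.2.1, cntB.2.2.2.2.1, cntB.2.2.2.2.2.1, cntB.2.2.2.2.2.2]
    push_cast
    ring

theorem dsysA : DSys pat dg pA qA rA sA b1 b2 3 3 18 dA := by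
  refine ⟨sysA, ?_, ?_, ?_, ?_, ?_⟩
  · intro b hb t
    obtain ⟨h1, h2, h3⟩ := (degq b).1 hb
    rw [tdeg_wtg dg_le, h1, h2, h3]
    push_cast
    ring
  · intro b hb t
    obtain ⟨h1, h2, h3⟩ := (degr b).1 hb
    rw [tdeg_wtg dg_le, h1, h2, h3]
    push_cast
    ring
  · intro b hb t
    obtain ⟨h1, h2, h3⟩ := (degs b).1
    rw [tdeg_wtg dg_le, h1, h2, h3]
    push_cast
    ring
  · intro b hb t
    obtain ⟨h1, h2, h3⟩ := (degP b).1 hb
    rw [tdeg_wtg dg_le, h1, h2, h3]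
    push_cast
    ring
  · decide +kernel

theorem dsysB : DSys pat dg pB qB rB sB b1 b2 3 3 18 dB := by
  refine ⟨sysB, ?_, ?_, ?_, ?_, ?_⟩
  · intro b hb t
    obtain ⟨h1, h2, h3⟩ := (degq b).2 hb
    rw [tdeg_wtg dg_le, h1, h2, h3]
    push_cast
    ring
  · intro b hb t
    obtain ⟨h1, h2, h3⟩ := (degr b).2 hb
    rw [tdeg_wtg dg_le, h1, h2, h3]
    push_cast
    ring
  · intro b hb t
    obtain ⟨h1, h2, h3⟩ := (degs b).2
    rw [tdeg_wtg dg_le, h1, h2, h3]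
    push_cast
    ring
  · intro b hb t
    obtain ⟨h1, h2, h3⟩ := (degP b).2 hb
    rw [tdeg_wtg dg_le, h1, h2, h3]
    push_cast
    ring
  · decide +kernel

end Pool.Agent.Zk14.BarD
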