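import Pool.Agent.Zk14.BarD.K4

/-!
# The barrier for certificates with degree conditions: the tetrahedron
-/

set_option autoImplicit false
open Finset

namespace Pool.Agent.Zk14.BarD

open Pool.Agent.Zk14.Bar (Flag IsPSD pull square value TetraFree FonDerFlaass Str Str_three
  Str_tetraFree Str_fonDerFlaass pat_good' Symm3 tot bi view pat pat_symm1 pat_symm2 dg dg_le b1 b2)
open Pool.Agent.Zk14.BarM (Sys Ok Compare wtg cntg cnt1g tot_wtg dens_wtg)

/-- The rotation which maps the class of `b` to the first class. -/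
def sh (b : Fin 15) : Fin 15 := ![0, 0, 0, 0, 0, 10, 10, 10, 10, 10, 5, 5, 5, 5, 5] b

/-- The blocks of high level. -/
def pl (b : Fin 15) : Bool :=
  ![false, false, false, true, true, false, false, false, true, true, false, false, false, true,
    true] b

/-- The representative. -/
def rep (b : Fin 15) : Fin 15 := if pl b = true then 4 else 2

theorem sh_dg : ∀ b x, dg (x + sh b) = dg x := by decide +kernel

theorem sh_pat : ∀ b x y z, dg x = 0 → dg y = 0 → dg z = 0 →
    pat x y z = pat (x + sh b) (y + sh b) (z + sh b) := by decide +kernel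

theorem rep_pat : ∀ b x y, dg x = 0 → dg y = 0 →
    pat b x y = pat (rep b) (x + sh b) (y + sh b) := by decide +kernel

theorem cf_rep {a : Fin 15 → ℕ} (ha : ∀ x, dg x = 0 → a x = 1) (c : (m : ℕ) → Flag 1 m → ℝ)
    (m : ℕ) (φ : Fin 1 → Fin 15) :
    cf pat dg a c m φ = cf pat dg (fun _ => 1) c m (fun _ => rep (φ 0)) :=
  cf_congr pat_symm c m (Equiv.addRight (sh (φ 0))) (sh_dg (φ 0)) ha (sh_pat (φ 0)) _ _
    (rep_pat (φ 0))

/-- The coefficients. -/
def cz (a dev : Fin 15 → ℕ) (b : Fin 15) : ℤ :=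
  (a b : ℤ) * (if dg b = 0 then 18 else - (3 * (dev b : ℤ)))

theorem lam3_eval {a : Fin 15 → ℕ} (dev : Fin 15 → ℕ) (ha : ∀ x, dg x = 0 → a x = 1)
    (c : (m : ℕ) → Flag 1 m → ℝ) (m : ℕ) :
    lam3 pat dg a 3 18 dev c m =
      ((∑ b, if pl b = true then cz a dev b else 0 : ℤ) : ℝ) *
        cf pat dg (fun _ => 1) c m (fun _ => 4) +
      ((∑ b, if pl b = true then 0 else cz a dev b : ℤ) : ℝ) *
        cf pat dg (fun _ => 1) c m (fun _ => 2) := by
  unfold lam3
  push_cast
  rw [sum_mul, sum_mul, ← sum_add_distrib]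
  refine Fintype.sum_equiv (Equiv.funUnique (Fin 1) (Fin 15)) _ _ fun φ => ?_
  have he : (Equiv.funUnique (Fin 1) (Fin 15)) φ = φ 0 := rfl
  rw [he, cf_rep ha]
  unfold rep cz
  by_cases h : pl (φ 0) = true
  · simp only [h, if_true]
    push_cast
    ring
  · simp only [h]
    push_cast
    ring

theorem cancel (c : (m : ℕ) → Flag 1 m → ℝ) (m : ℕ) :
    (10 : ℝ) * lam3 pat dg pA 3 18 dA c m + (-8) * lam3 pat dg pB 3 18 dB c m = 0 := by
  rw [lam3_eval dA (by decide +kernel), lam3_eval dB (by decide +kernel)]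
  have h1 : (∑ b, if pl b = true then cz pA dA b else 0 : ℤ) = -24 := by decide +kernel
  have h2 : (∑ b, if pl b = true then 0 else cz pA dA b : ℤ) = 24 := by decide +kernel
  have h3 : (∑ b, if pl b = true then cz pB dB b else 0 : ℤ) = -30 := by decide +kernel
  have h4 : (∑ b, if pl b = true then 0 else cz pB dB b : ℤ) = 30 := by decide +kernel
  rw [h1, h2, h3, h4]
  push_cast
  ring

/-- The barrier for certificates with degree conditions. -/
theorem barrier (N : ℕ) (hN : 3 ≤ N) (C : ℝ) : ∃ ε : ℝ, 0 < ε ∧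
    ∀ Q : (s m : ℕ) → Flag s m → Flag s m → ℝ, IsPSD Q →
    ∀ c : (m : ℕ) → Flag 1 m → ℝ, (∀ m F, |c m F| ≤ C) → ∀ lam : ℝ,
      (∀ H : Finset (Finset (Fin N)), (∀ e ∈ H, e.card = 3) → TetraFree H → FonDerFlaass H →
        value2 Q c H ≤ lam) → 5 / 9 + ε ≤ lam := by
  by_cases hC : 0 ≤ C
  · obtain ⟨ε, hε, h⟩ := dsysA.barrier dsysB (by norm_num) (by norm_num) (by norm_num)
      (by norm_num) cancel (by norm_num) N hN C hC
    refine ⟨ε, hε, fun Q hQ c hc lam hlam => ?_⟩
    have := h Q hQ c hc lam fun τ =>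
      hlam (Str pat τ) (Str_three pat τ) (Str_tetraFree pat_good' τ) (Str_fonDerFlaass τ)
    norm_num at this
    exact this
  · refine ⟨1, one_pos, fun Q hQ c hc lam hlam => ?_⟩
    exact absurd ((abs_nonneg _).trans (hc 0 ∅)) hC

end Pool.Agent.Zk14.BarD
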