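import Pool.Agent.Zk14.BarD.Deg

/-!
# Certificates with degree conditions are sound
-/

set_option autoImplicit false
open Finset

namespace Pool.Agent.Zk14.BarD

open Pool.Agent.Zk14.Bar (Flag IsPSD pull square value TetraFree Str Str_three Str_tetraFree Good
  Symm3 tot bi view qf sos big_nonneg six_card)

/-- A 3-graph as a pattern. -/
theorem pattern_of {n : ℕ} (H : Finset (Finset (Fin n))) (h3 : ∀ e ∈ H, e.card = 3)
    (hH : TetraFree H) : ∃ G : Fin n → Fin n → Fin n → Bool, Symm3 G ∧ Good G ∧
      (∀ x z, G x x z = false) ∧ (6 * H.card : ℝ) ≤ ∑ x, ∑ y, ∑ z, bi (G x y z) := by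
  classical
  set G : Fin n → Fin n → Fin n → Bool := fun x y z =>
    decide (x ≠ y ∧ x ≠ z ∧ y ≠ z ∧ ({x, y, z} : Finset (Fin n)) ∈ H) with hG
  have hset1 : ∀ x y z : Fin n, ({x, y, z} : Finset (Fin n)) = {y, x, z} := by
    intro x y z
    ext w; simp only [mem_insert, mem_singleton]; tauto
  have hset2 : ∀ x y z : Fin n, ({x, y, z} : Finset (Fin n)) = {x, z, y} := by
    intro x y z
    ext w; simp only [mem_insert, mem_singleton]; tauto
  have hS : Symm3 G := by
    constructor
    · intro x y z
      simp only [hG, decide_eq_decide]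
      rw [hset1 x y z]
      constructor <;> rintro ⟨h1, h2, h4, h5⟩ <;> exact ⟨Ne.symm h1, h4, h2, h5⟩
    · intro x y z
      simp only [hG, decide_eq_decide]
      rw [hset2 x y z]
      constructor <;> rintro ⟨h1, h2, h4, h5⟩ <;> exact ⟨h2, h1, Ne.symm h4, h5⟩
  have hgood : Good G := by
    intro x y z w h1 h2 h4 h5
    simp only [hG, decide_eq_true_eq] at h1 h2 h4 h5
    obtain ⟨e, he, hc, hne⟩ := hH {x, y, z, w} (by
      rw [card_insert_of_notMem, card_insert_of_notMem, card_insert_of_notMem, card_singleton]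
      · simp only [mem_singleton]; exact h5.2.2.1
      · simp only [mem_insert, mem_singleton]; exact fun h => h.elim h1.2.2.1 h2.2.2.1
      · simp only [mem_insert, mem_singleton]
        exact fun h => h.elim h1.1 (fun h => h.elim h1.2.1 h2.2.1))
    apply hne
    have hcard : ({x, y, z, w} : Finset (Fin n)).card = 4 := by
      rw [card_insert_of_notMem, card_insert_of_notMem, card_insert_of_notMem, card_singleton]
      · simp only [mem_singleton]; exact h5.2.2.1
      · simp only [mem_insert, mem_singleton]; exact fun h => h.elim h1.2.2.1 h2.2.2.1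
      · simp only [mem_insert, mem_singleton]
        exact fun h => h.elim h1.1 (fun h => h.elim h1.2.1 h2.2.1)
    have hsd : (({x, y, z, w} : Finset (Fin n)) \ e).card = 1 := by
      rw [card_sdiff_of_subset he, hcard, hc]
    obtain ⟨v, hv⟩ := card_eq_one.1 hsd
    have hvm : v ∈ ({x, y, z, w} : Finset (Fin n)) \ e := by rw [hv]; exact mem_singleton_self v
    have heq : e = ({x, y, z, w} : Finset (Fin n)).erase v := by
      rw [← sdiff_singleton_eq_erase, ← hv, Finset.sdiff_sdiff_eq_self he]
    have hvm' := (mem_sdiff.1 hvm).1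
    simp only [mem_insert, mem_singleton] at hvm'
    rcases hvm' with rfl | rfl | rfl | rfl
    · have : ({v, y, z, w} : Finset (Fin n)).erase v = {y, z, w} := by
        ext u
        simp only [mem_erase, mem_insert, mem_singleton]
        constructor
        · rintro ⟨h6, h7⟩
          tauto
        · intro h7
          refine ⟨?_, Or.inr h7⟩
          rintro rfl
          rcases h7 with h7 | h7 | h7
          · exact h1.1 h7
          · exact h1.2.1 h7
          · exact h2.2.1 h7
      rw [heq, this]
      exact h5.2.2.2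
    · have : ({x, v, z, w} : Finset (Fin n)).erase v = {x, z, w} := by
        ext u
        simp only [mem_erase, mem_insert, mem_singleton]
        constructor
        · rintro ⟨h6, h7⟩
          tauto
        · intro h7
          refine ⟨?_, by tauto⟩
          rintro rfl
          rcases h7 with h7 | h7 | h7
          · exact h1.1 h7.symm
          · exact h1.2.2.1 h7
          · exact h2.2.2.1 h7
      rw [heq, this]
      exact h4.2.2.2
    · have : ({x, y, v, w} : Finset (Fin n)).erase v = {x, y, w} := by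
        ext u
        simp only [mem_erase, mem_insert, mem_singleton]
        constructor
        · rintro ⟨h6, h7⟩
          tauto
        · intro h7
          refine ⟨?_, by tauto⟩
          rintro rfl
          rcases h7 with h7 | h7 | h7
          · exact h1.2.1 h7.symm
          · exact h1.2.2.1 h7.symm
          · exact h4.2.2.1 h7
      rw [heq, this]
      exact h2.2.2.2
    · have : ({x, y, z, v} : Finset (Fin n)).erase v = {x, y, z} := by
        ext u
        simp only [mem_erase, mem_insert, mem_singleton]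
        constructor
        · rintro ⟨h6, h7⟩
          tauto
        · intro h7
          refine ⟨?_, by tauto⟩
          rintro rfl
          rcases h7 with h7 | h7 | h7
          · exact h2.2.1 h7.symm
          · exact h2.2.2.1 h7.symm
          · exact h4.2.2.1 h7.symm
      rw [heq, this]
      exact h1.2.2.2
  refine ⟨G, hS, hgood, ?_, six_card h3⟩
  intro x z
  simp [hG]

/-! ### Optimal weights -/

section opt

variable {B : Type} [Fintype B] [DecidableEq B]

/-- The trilinear form. -/
noncomputable def tri (G : B → B → B → Bool) (a b c : B → ℝ) : ℝ :=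
  ∑ x, ∑ y, ∑ z, a x * b y * c z * bi (G x y z)

omit [DecidableEq B] in
theorem tri_lin (G : B → B → B → Bool) (a a' b c : B → ℝ) (r s : ℝ) :
    tri G (fun x => r * a x + s * a' x) b c = r * tri G a b c + s * tri G a' b c := by
  unfold tri
  simp only [mul_sum, ← sum_add_distrib]
  refine sum_congr rfl fun x _ => sum_congr rfl fun y _ => sum_congr rfl fun z _ => ?_
  ring

omit [DecidableEq B] in
theorem tri_swap {G : B → B → B → Bool} (hG : Symm3 G) (a b c : B → ℝ) :
    tri G a b c = tri G b a c := by
  unfold tri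
  rw [sum_comm]
  refine sum_congr rfl fun x _ => sum_congr rfl fun y _ => sum_congr rfl fun z _ => ?_
  rw [hG.1 y x z]
  ring

omit [DecidableEq B] in
theorem tri_swap2 {G : B → B → B → Bool} (hG : Symm3 G) (a b c : B → ℝ) :
    tri G a b c = tri G a c b := by
  unfold tri
  refine sum_congr rfl fun x _ => ?_
  rw [sum_comm]
  refine sum_congr rfl fun y _ => sum_congr rfl fun z _ => ?_
  rw [hG.2 x z y]
  ring

omit [DecidableEq B] in
theorem tri_cube {G : B → B → B → Bool} (hG : Symm3 G) (w e : B → ℝ) (r s : ℝ) :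
    Pool.Agent.Zk14.Bar.dens G (fun x => r * w x + s * e x) =
      r ^ 3 * Pool.Agent.Zk14.Bar.dens G w + 3 * r ^ 2 * s * tri G e w w +
        3 * r * s ^ 2 * tri G e e w + s ^ 3 * tri G e e e := by
  have hd : ∀ u : B → ℝ, Pool.Agent.Zk14.Bar.dens G u = tri G u u u := fun u => rfl
  have h2 : ∀ a b : B → ℝ, tri G a (fun x => r * w x + s * e x) b =
      r * tri G a w b + s * tri G a e b := by
    intro a b
    rw [tri_swap hG, tri_lin, tri_swap hG w, tri_swap hG e]
  have h3 : ∀ a b : B → ℝ, tri G a b (fun x => r * w x + s * e x) =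
      r * tri G a b w + s * tri G a b e := by
    intro a b
    rw [tri_swap2 hG, h2, tri_swap2 hG a w, tri_swap2 hG a e]
  rw [hd, hd, tri_lin, h2, h2, h3, h3, h3, h3]
  have e1 : tri G w w e = tri G e w w := by rw [tri_swap2 hG, tri_swap hG]
  have e2 : tri G w e w = tri G e w w := tri_swap hG _ _ _
  have e3 : tri G w e e = tri G e e w := by rw [tri_swap hG, tri_swap2 hG]
  have e4 : tri G e w e = tri G e e w := tri_swap2 hG _ _ _
  rw [e1, e2, e3, e4]
  ring

/-- The unit weight of a block. -/
noncomputable def unit (v : B) : B → ℝ := fun x => if x = v then 1 else 0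

theorem tri_unit (G : B → B → B → Bool) (v : B) (w : B → ℝ) :
    tri G (unit v) w w = bdeg G w v := by
  unfold tri bdeg unit
  rw [sum_eq_single v]
  · refine sum_congr rfl fun y _ => sum_congr rfl fun z _ => ?_
    rw [if_pos rfl]
    ring
  · intro x _ hx
    refine sum_eq_zero fun y _ => sum_eq_zero fun z _ => ?_
    rw [if_neg hx]
    ring
  · intro h
    exact absurd (mem_univ v) h

theorem tri_unit2 {G : B → B → B → Bool} (h0 : ∀ x z, G x x z = false) (v : B) (w : B → ℝ) :
    tri G (unit v) (unit v) w = 0 := by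
  unfold tri unit
  refine sum_eq_zero fun x _ => sum_eq_zero fun y _ => sum_eq_zero fun z _ => ?_
  by_cases hx : x = v
  · by_cases hy : y = v
    · rw [hx, hy, h0]
      unfold bi
      simp
    · rw [if_neg hy]
      ring
  · rw [if_neg hx]
    ring

/-- There are optimal weights; all blocks in their support have the same degree. -/
theorem exists_opt [Nonempty B] {G : B → B → B → Bool} (hG : Symm3 G)
    (h0 : ∀ x z, G x x z = false) (u : B → ℝ) (hu : ∀ b, 0 ≤ u b) (hu1 : tot u = 1) :
    ∃ w : B → ℝ, (∀ b, 0 ≤ w b) ∧ tot w = 1 ∧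
      Pool.Agent.Zk14.Bar.dens G u ≤ Pool.Agent.Zk14.Bar.dens G w ∧
      ∀ b, w b ≠ 0 → bdeg G w b = Pool.Agent.Zk14.Bar.dens G w := by
  have hcont : Continuous fun w : B → ℝ => Pool.Agent.Zk14.Bar.dens G w := by
    unfold Pool.Agent.Zk14.Bar.dens
    fun_prop
  have hune : u ∈ stdSimplex ℝ B := ⟨hu, hu1⟩
  obtain ⟨w, hw, hmax⟩ := (isCompact_stdSimplex (𝕜 := ℝ) B).exists_isMaxOn ⟨u, hune⟩
    hcont.continuousOn
  have hw0 : ∀ b, 0 ≤ w b := hw.1
  have hw1 : tot w = 1 := hw.2
  set D := Pool.Agent.Zk14.Bar.dens G w with hD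
  have hD0 : 0 ≤ D := by
    rw [hD]
    unfold Pool.Agent.Zk14.Bar.dens
    refine sum_nonneg fun x _ => sum_nonneg fun y _ => sum_nonneg fun z _ => ?_
    refine mul_nonneg (mul_nonneg (mul_nonneg (hw0 x) (hw0 y)) (hw0 z)) ?_
    unfold bi
    cases G x y z <;> norm_num
  have hle : ∀ v, bdeg G w v ≤ D := by
    intro v
    by_contra hcon
    push Not at hcon
    set e := bdeg G w v - D with he
    have he0 : 0 < e := by linarith
    set s : ℝ := e / (4 * (D + e)) with hs
    have hDe : 0 < D + e := by linarith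
    have hs0 : 0 < s := by positivity
    have hs1 : s ≤ 1 / 4 := by
      rw [hs, div_le_div_iff₀ (by positivity) (by norm_num)]
      linarith
    have hsD : s * (D + e) = e / 4 := by
      rw [hs]
      field_simp
    have hmem : (fun x => (1 - s) * w x + s * unit v x) ∈ stdSimplex ℝ B := by
      constructor
      · intro x
        have h1 : 0 ≤ unit v x := by
          unfold unit
          split_ifs <;> norm_num
        have h2 := hw0 x
        have h3 : 0 ≤ 1 - s := by linarith
        show 0 ≤ (1 - s) * w x + s * unit v x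
        positivity
      · show ∑ x, ((1 - s) * w x + s * unit v x) = 1
        rw [sum_add_distrib, ← mul_sum, ← mul_sum]
        have h1 : ∑ x, w x = 1 := hw1
        have h2 : ∑ x, unit v x = 1 := by
          unfold unit
          simp
        rw [h1, h2]
        ring
    have h1 : Pool.Agent.Zk14.Bar.dens G (fun x => (1 - s) * w x + s * unit v x) ≤ D := hmax hmem
    rw [tri_cube hG, tri_unit, tri_unit2 h0, tri_unit2 h0, ← hD] at h1
    have h2 : bdeg G w v = D + e := by rw [he]; ring
    rw [h2] at h1
    have h3 : 3 * (1 - s) ^ 2 * s * (D + e) ≤ D * (1 - (1 - s) ^ 3) := by linarith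
    have h4 : 3 * (1 - s) ^ 2 * (D + e) ≤ D * (3 - 3 * s + s ^ 2) := by
      have h5 : s * (3 * (1 - s) ^ 2 * (D + e)) ≤ s * (D * (3 - 3 * s + s ^ 2)) := by
        calc s * (3 * (1 - s) ^ 2 * (D + e)) = 3 * (1 - s) ^ 2 * s * (D + e) := by ring
          _ ≤ D * (1 - (1 - s) ^ 3) := h3
          _ = _ := by ring
      exact le_of_mul_le_mul_left h5 hs0
    have h5 : 3 * (1 - s) ^ 2 * (D + e) = 3 * (D + e) - 6 * (s * (D + e)) +
        3 * s * (s * (D + e)) := by ring
    rw [h5, hsD] at h4
    have h6 : 0 ≤ s * D := by positivity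
    have h7 : D * s ^ 2 ≤ s * D := by nlinarith
    have h8 : 0 ≤ s * (e / 4) := by positivity
    nlinarith
  refine ⟨w, hw0, hw1, hmax hune, ?_⟩
  intro b hb
  have hsum : ∑ x, w x * (D - bdeg G w x) = 0 := by
    have h1 : ∑ x, w x * bdeg G w x = D := by
      rw [hD]
      unfold bdeg Pool.Agent.Zk14.Bar.dens
      simp only [mul_sum]
      refine sum_congr rfl fun x _ => sum_congr rfl fun y _ => sum_congr rfl fun z _ => ?_
      ring
    simp only [mul_sub, sum_sub_distrib]
    rw [h1, ← sum_mul]
    have h2 : ∑ x, w x = 1 := hw1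
    rw [h2]
    ring
  have hnn : ∀ x ∈ (univ : Finset B), 0 ≤ w x * (D - bdeg G w x) := fun x _ =>
    mul_nonneg (hw0 x) (by linarith [hle x])
  have h3 := (sum_eq_zero_iff_of_nonneg hnn).1 hsum b (mem_univ b)
  rcases mul_eq_zero.1 h3 with h4 | h4
  · exact absurd h4 hb
  · linarith

end opt

/-- A certificate with degree terms proves a bound for all tetrahedron-free 3-graphs. -/
theorem sound2 {N : ℕ} (hN : 3 ≤ N) {Q : (s m : ℕ) → Flag s m → Flag s m → ℝ} (hQ : IsPSD Q)
    (c : (m : ℕ) → Flag 1 m → ℝ) {lam : ℝ}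
    (h : ∀ H : Finset (Finset (Fin N)), (∀ e ∈ H, e.card = 3) → TetraFree H →
      value2 Q c H ≤ lam) {n : ℕ} (H : Finset (Finset (Fin n))) (h3 : ∀ e ∈ H, e.card = 3)
    (hH : TetraFree H) : (6 * H.card : ℝ) ≤ lam * (n : ℝ) ^ 3 := by
  rcases Nat.eq_zero_or_pos n with hn | hn
  · subst hn
    have : H = ∅ := by
      rw [eq_empty_iff_forall_notMem]
      intro e he
      have h1 := h3 e he
      have h2 := card_le_univ e
      rw [Fintype.card_fin] at h2
      omega
    rw [this]
    simp
  obtain ⟨G, hS, hgood, h0, hcard⟩ := pattern_of H h3 hH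
  obtain ⟨sl, hsl, heq⟩ := evaluate2 (G := G) (c := c) hN hS
    (fun τ => h _ (Str_three G τ) (Str_tetraFree hgood τ))
  have hne : Nonempty (Fin n) := ⟨⟨0, hn⟩⟩
  have hn0 : (n : ℝ) ≠ 0 := by exact_mod_cast hn.ne'
  have hu1 : tot (fun _ : Fin n => (1 / n : ℝ)) = 1 := by
    unfold tot
    rw [sum_const, card_univ, Fintype.card_fin, nsmul_eq_mul]
    field_simp
  obtain ⟨w, hw0, hw1, hle, hdeg⟩ := exists_opt hS h0 (fun _ => (1 / n : ℝ))
    (fun _ => by positivity) hu1
  have h1 := heq w
  have hlt : (∑ m ∈ range (N - 3), tot w ^ (N - (m + 4)) * lt G c m w) = 0 := by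
    refine sum_eq_zero fun m _ => ?_
    have : lt G c m w = 0 := by
      unfold lt
      refine sum_eq_zero fun φ _ => ?_
      by_cases hz : w (φ 0) = 0
      · rw [hz, zero_mul, zero_mul]
      · rw [hdeg _ hz, hw1]
        ring
    rw [this, mul_zero]
  rw [hlt, hw1] at h1
  have h2 : 0 ≤ ∑ s ∈ range (N + 1), ∑ m ∈ range (N + 1),
      if s + 2 * m ≤ N then tot w ^ (N - (s + 2 * m)) * sos G Q s m w else 0 :=
    sum_nonneg fun s _ => sum_nonneg fun m _ => big_nonneg G hQ hw0 s m
  rw [hw1] at h2
  have h4 : 0 ≤ ∑ τ : Fin N → Fin n, (∏ i : Fin N, w (τ i)) * sl τ :=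
    sum_nonneg fun τ _ => mul_nonneg (prod_nonneg fun _ _ => hw0 _) (hsl τ)
  have h5 : Pool.Agent.Zk14.Bar.dens G w ≤ lam := by
    simp only [one_pow, one_mul, mul_one, add_zero] at h1 h2
    linarith
  have h6 : Pool.Agent.Zk14.Bar.dens G (fun _ : Fin n => (1 / n : ℝ)) =
      (∑ x, ∑ y, ∑ z, bi (G x y z)) / (n : ℝ) ^ 3 := by
    unfold Pool.Agent.Zk14.Bar.dens
    simp only [sum_div]
    refine sum_congr rfl fun x _ => sum_congr rfl fun y _ => sum_congr rfl fun z _ => ?_
    field_simp
  rw [h6] at hle
  have h7 : (∑ x, ∑ y, ∑ z, bi (G x y z)) / (n : ℝ) ^ 3 ≤ lam := hle.trans h5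
  rw [div_le_iff₀ (by positivity)] at h7
  exact hcard.trans h7

end Pool.Agent.Zk14.BarD
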